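import Mathlib

set_option autoImplicit false
set_option linter.unusedSectionVars false

/-!
# Beck–Fiala with a constant factor gain: basic definitions and static facts

`x : V → ℝ` is a fractional colouring with values in `[-1,1]`.
-/

namespace Pool.Agent.Helper66.BF

open Finset

variable {V ι : Type*} [Fintype V] [DecidableEq V] [Fintype ι] [DecidableEq ι]

/-- floating elements of a fractional colouring -/
noncomputable def Fl (x : V → ℝ) : Finset V := univ.filter (fun v => |x v| < 1)

/-- number of floating elements of the set `S j` -/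
noncomputable def fl (S : ι → Finset V) (x : V → ℝ) (j : ι) : ℕ := (S j ∩ Fl x).card

/-- sum over the frozen elements of `S j` -/
noncomputable def fx (S : ι → Finset V) (x : V → ℝ) (j : ι) : ℝ := ∑ v ∈ S j \ Fl x, x v

/-- sign of the frozen sum -/
noncomputable def sg (S : ι → Finset V) (x : V → ℝ) (j : ι) : ℝ := if 0 ≤ fx S x j then 1 else -1

/-- `j` is held: not big, and a bad completion is still possible -/
def Held (S : ι → Finset V) (t K : ℕ) (x : V → ℝ) (j : ι) : Prop :=
  fl S x j ≤ t + K ∧ (2 * t - 2 * K : ℝ) < |fx S x j| + fl S x j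

/-- `y` arises from `x` by changing floating values only -/
def Agree (x y : V → ℝ) : Prop := (∀ v, v ∉ Fl x → y v = x v) ∧ ∀ v, |y v| ≤ 1

section static

variable {S : ι → Finset V} {t K : ℕ} {x y : V → ℝ} {j : ι}

lemma mem_Fl {x : V → ℝ} {v : V} : v ∈ Fl x ↔ |x v| < 1 := by simp [Fl]

lemma sg_mul_self : sg S x j * sg S x j = 1 := by
  unfold sg; split_ifs <;> norm_num

lemma abs_sg : |sg S x j| = 1 := by
  unfold sg; split_ifs <;> norm_num

lemma sg_mul_fx : sg S x j * fx S x j = |fx S x j| := by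
  unfold sg; split_ifs with h
  · rw [one_mul, abs_of_nonneg h]
  · rw [abs_of_neg (not_le.mp h)]; ring

lemma sum_agree (h : Agree x y) : ∑ v ∈ S j, y v = fx S x j + ∑ v ∈ S j ∩ Fl x, y v := by
  rw [← sum_inter_add_sum_sdiff (S j) (Fl x) y, add_comm]
  congr 1
  unfold fx
  refine sum_congr rfl fun v hv => h.1 v (mem_sdiff.mp hv).2

lemma abs_sum_inter_le (h : Agree x y) : |∑ v ∈ S j ∩ Fl x, y v| ≤ fl S x j := by
  refine (abs_sum_le_sum_abs _ _).trans ?_
  refine (sum_le_sum (fun v _ => h.2 v)).trans ?_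
  simp [fl]

/-- lower bound for the signed sum of a held set -/
lemma held_lower (hj : Held S t K x j) (h : Agree x y) :
    -(4 * K : ℝ) ≤ sg S x j * ∑ v ∈ S j, y v := by
  rw [sum_agree h, mul_add, sg_mul_fx]
  have h1 : |sg S x j * ∑ v ∈ S j ∩ Fl x, y v| ≤ fl S x j := by
    rw [abs_mul, abs_sg, one_mul]; exact abs_sum_inter_le h
  have h2 := (abs_le.mp h1).1
  have h3 := hj.2
  have h4 : (fl S x j : ℝ) ≤ t + K := by exact_mod_cast hj.1
  linarith

/-- a held set with bounded signed sum has many floating elements -/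
lemma held_fl (hj : Held S t K x j) (h : Agree x y)
    (hA : sg S x j * ∑ v ∈ S j, y v ≤ 8 * K) : (t : ℝ) - 5 * K ≤ fl S x j := by
  rw [sum_agree h, mul_add, sg_mul_fx] at hA
  have h1 : |sg S x j * ∑ v ∈ S j ∩ Fl x, y v| ≤ fl S x j := by
    rw [abs_mul, abs_sg, one_mul]; exact abs_sum_inter_le h
  have h2 := (abs_le.mp h1).1
  have h3 := hj.2
  linarith

lemma Fl_subset (h : Agree x y) : Fl y ⊆ Fl x := by
  intro v hv
  by_contra hx
  rw [mem_Fl] at hv hx
  have := h.1 v (by rw [mem_Fl]; exact hx)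
  rw [this] at hv
  exact hx hv

lemma fl_le (h : Agree x y) : fl S y j ≤ fl S x j :=
  card_le_card (inter_subset_inter_left (Fl_subset h))

/-- change of the frozen sum -/
lemma fx_change (h : Agree x y) : |fx S y j - fx S x j| ≤ fl S x j - fl S y j := by
  have hsub := Fl_subset h
  have h1 : S j \ Fl y = (S j \ Fl x) ∪ (S j ∩ (Fl x \ Fl y)) := by
    ext v
    simp only [mem_sdiff, mem_union, mem_inter]
    constructor
    · rintro ⟨h1, h2⟩
      by_cases h3 : v ∈ Fl x
      · right; exact ⟨h1, h3, h2⟩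
      · left; exact ⟨h1, h3⟩
    · rintro (⟨h1, h2⟩ | ⟨h1, h2, h3⟩)
      · exact ⟨h1, fun h4 => h2 (hsub h4)⟩
      · exact ⟨h1, h3⟩
  have hdisj : Disjoint (S j \ Fl x) (S j ∩ (Fl x \ Fl y)) := by
    rw [disjoint_left]
    intro v hv hv'
    simp only [mem_sdiff, mem_inter] at hv hv'
    exact hv.2 hv'.2.1
  have h2 : fx S y j = fx S x j + ∑ v ∈ S j ∩ (Fl x \ Fl y), y v := by
    unfold fx
    rw [h1, sum_union hdisj]
    congr 1
    exact sum_congr rfl fun v hv => h.1 v (mem_sdiff.mp hv).2
  have h3 : fl S x j = fl S y j + (S j ∩ (Fl x \ Fl y)).card := by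
    unfold fl
    rw [← card_union_of_disjoint]
    · congr 1
      ext v
      simp only [mem_sdiff, mem_union, mem_inter]
      constructor
      · rintro ⟨h1, h2⟩
        by_cases h3 : v ∈ Fl y
        · left; exact ⟨h1, h3⟩
        · right; exact ⟨h1, h2, h3⟩
      · rintro (⟨h1, h2⟩ | ⟨h1, h2, h3⟩)
        · exact ⟨h1, hsub h2⟩
        · exact ⟨h1, h2⟩
    · rw [disjoint_left]
      intro v hv hv'
      simp only [mem_sdiff, mem_inter] at hv hv'
      exact hv'.2.2 hv.2
  rw [h2, h3, add_sub_cancel_left]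
  push_cast
  rw [add_sub_cancel_left]
  refine (abs_sum_le_sum_abs _ _).trans ?_
  refine (sum_le_sum (fun v _ => h.2 v)).trans ?_
  simp

lemma pot_le (h : Agree x y) : |fx S y j| + fl S y j ≤ |fx S x j| + fl S x j := by
  have h1 := fx_change (S := S) (j := j) h
  have h2 : |fx S y j| ≤ |fx S x j| + |fx S y j - fx S x j| := by
    have := abs_add_le (fx S x j) (fx S y j - fx S x j)
    rwa [add_sub_cancel] at this
  linarith

lemma held_of_held (h : Agree x y) (hx : fl S x j ≤ t + K) (hy : Held S t K y j) :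
    Held S t K x j := ⟨hx, lt_of_lt_of_le hy.2 (pot_le h)⟩

lemma sg_eq (h : Agree x y) (hx : fl S x j ≤ t + K) (hy : Held S t K y j)
    (htK : 3 * K ≤ t) : sg S y j = sg S x j := by
  have h1 := fx_change (S := S) (j := j) h
  have hxx := held_of_held h hx hy
  have h2 := hxx.2
  have h3 := hy.2
  have h4 : (fl S x j : ℝ) ≤ t + K := by exact_mod_cast hx
  have h5 : (3 * K : ℝ) ≤ t := by exact_mod_cast htK
  have h6 := abs_le.mp h1
  have hK : (0:ℝ) ≤ K := Nat.cast_nonneg K
  unfold sg
  by_cases ha : 0 ≤ fx S x j <;> by_cases hb : 0 ≤ fx S y j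
  · simp [ha, hb]
  · exfalso
    rw [abs_of_nonneg ha] at h2
    rw [abs_of_neg (not_le.mp hb)] at h3
    linarith [h6.1]
  · exfalso
    rw [abs_of_neg (not_le.mp ha)] at h2
    rw [abs_of_nonneg hb] at h3
    linarith [h6.2]
  · simp [ha, hb]

end static

end Pool.Agent.Helper66.BF
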