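import Mathlib
import Pool.Agent.Helper66.BF.Defs

set_option autoImplicit false
set_option linter.unusedSectionVars false

/-!
# The polytope of admissible moves, extreme points and the rank bound
-/

namespace Pool.Agent.Helper66.BF

open Finset

variable {V ι : Type*} [Fintype V] [DecidableEq V] [Fintype ι] [DecidableEq ι]

/-- the sets having `z` as a centre -/
def mem (P : ι → Finset V) (z : V) : Finset ι := univ.filter (fun j => z ∈ P j)

open Classical in
/-- the held sets having `z` as a centre -/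
noncomputable def hmem (S : ι → Finset V) (t K : ℕ) (x : V → ℝ) (P : ι → Finset V) (z : V) :
    Finset ι := (mem P z).filter (Held S t K x)

/-- the group at `z` is heavy -/
def Heavy (S : ι → Finset V) (t K : ℕ) (x : V → ℝ) (P : ι → Finset V) (z : V) : Prop :=
  (mem P z).card < 3 * (hmem S t K x P z).card

/-- the polytope of admissible new colourings -/
def Poly (S : ι → Finset V) (t K : ℕ) (x : V → ℝ) (P : ι → Finset V) : Set (V → ℝ) :=
  {y | Agree x y ∧ (∀ j, t + K < fl S x j → ∑ v ∈ S j, y v = 0) ∧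
    (∀ j, Held S t K x j → sg S x j * ∑ v ∈ S j, y v ≤ 8 * K) ∧
    (∀ j, Held S t K x j → P j = ∅ → sg S x j * ∑ v ∈ S j, y v ≤ 0) ∧
    (∀ z ∈ Fl x, Heavy S t K x P z →
      ∑ j ∈ hmem S t K x P z, (4 * K + sg S x j * ∑ v ∈ S j, y v) ≤ (mem P z).card * (4 * K))}

lemma poly_isCompact (S : ι → Finset V) (t K : ℕ) (x : V → ℝ) (P : ι → Finset V) :
    IsCompact (Poly S t K x P) := by
  have hbox : IsCompact (Set.pi Set.univ (fun _ : V => Set.Icc (-1:ℝ) 1)) :=
    isCompact_univ_pi fun _ => isCompact_Icc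
  refine hbox.of_isClosed_subset ?_ ?_
  · unfold Poly Agree
    simp only [Set.ofPred_and, Set.ofPred_forall]
    refine IsClosed.inter (IsClosed.inter ?_ ?_) (IsClosed.inter ?_ (IsClosed.inter ?_
      (IsClosed.inter ?_ ?_)))
    · exact isClosed_iInter fun v => isClosed_iInter fun _ =>
        isClosed_eq (continuous_apply v) continuous_const
    · exact isClosed_iInter fun v => isClosed_le (by fun_prop) continuous_const
    · exact isClosed_iInter fun j => isClosed_iInter fun _ =>
        isClosed_eq (by fun_prop) continuous_const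
    · exact isClosed_iInter fun j => isClosed_iInter fun _ =>
        isClosed_le (by fun_prop) continuous_const
    · exact isClosed_iInter fun j => isClosed_iInter fun _ => isClosed_iInter fun _ =>
        isClosed_le (by fun_prop) continuous_const
    · exact isClosed_iInter fun z => isClosed_iInter fun _ => isClosed_iInter fun _ =>
        isClosed_le (by fun_prop) continuous_const
  · intro y hy v _
    have := hy.1.2 v
    rw [abs_le] at this
    exact ⟨this.1, this.2⟩

/-- linear functionals: the sum over a set, or the signed sum over the held members of a group -/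
noncomputable def Phi (S : ι → Finset V) (t K : ℕ) (x : V → ℝ) (P : ι → Finset V) :
    ι ⊕ V → ((V → ℝ) →ₗ[ℝ] ℝ)
  | Sum.inl j => ∑ v ∈ S j, LinearMap.proj v
  | Sum.inr z => ∑ j ∈ hmem S t K x P z, (sg S x j) • ∑ v ∈ S j, LinearMap.proj v

lemma Phi_inl (S : ι → Finset V) (t K : ℕ) (x : V → ℝ) (P : ι → Finset V) (j : ι) (u : V → ℝ) :
    Phi S t K x P (Sum.inl j) u = ∑ v ∈ S j, u v := by
  simp [Phi]

lemma Phi_inr (S : ι → Finset V) (t K : ℕ) (x : V → ℝ) (P : ι → Finset V) (z : V) (u : V → ℝ) :
    Phi S t K x P (Sum.inr z) u = ∑ j ∈ hmem S t K x P z, sg S x j * ∑ v ∈ S j, u v := by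
  simp [Phi]

/-- extension by zero of functions on a finset -/
noncomputable def ext0 (F : Finset V) : (F → ℝ) →ₗ[ℝ] (V → ℝ) where
  toFun w := fun v => if h : v ∈ F then w ⟨v, h⟩ else 0
  map_add' a b := by
    ext v; by_cases h : v ∈ F <;> simp [h]
  map_smul' c a := by
    ext v; by_cases h : v ∈ F <;> simp [h]

lemma exists_kernel {α : Type*} (F : Finset V) (I : Finset α)
    (Φ : α → ((V → ℝ) →ₗ[ℝ] ℝ)) (h : I.card < F.card) :
    ∃ u : V → ℝ, u ≠ 0 ∧ (∀ v, v ∉ F → u v = 0) ∧ ∀ i ∈ I, Φ i u = 0 := by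
  let L : (F → ℝ) →ₗ[ℝ] (I → ℝ) := (LinearMap.pi (fun i : I => Φ i)).comp (ext0 F)
  have hker : LinearMap.ker L ≠ ⊥ := by
    apply LinearMap.ker_ne_bot_of_finrank_lt
    simp only [Module.finrank_fintype_fun_eq_card, Fintype.card_coe]
    exact h
  obtain ⟨w, hw, hw0⟩ := (Submodule.ne_bot_iff _).mp hker
  refine ⟨ext0 F w, ?_, ?_, ?_⟩
  · intro h0
    apply hw0
    ext ⟨v, hv⟩
    have := congrFun h0 v
    simpa [ext0, hv] using this
  · intro v hv
    simp [ext0, hv]
  · intro i hi
    have := congrFun (LinearMap.mem_ker.mp hw) ⟨i, hi⟩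
    simpa [L] using this

/-- at an extreme point with unchanged floating set there is no admissible direction -/
lemma extreme_no_dir {S : ι → Finset V} {t K : ℕ} {x : V → ℝ} {P : ι → Finset V} {y : V → ℝ}
    (hy : y ∈ (Poly S t K x P).extremePoints ℝ) (hFl : Fl y = Fl x) (u : V → ℝ)
    (hu : ∀ v, v ∉ Fl x → u v = 0)
    (h1 : ∀ j, t + K < fl S x j → ∑ v ∈ S j, u v = 0)
    (h2 : ∀ j, Held S t K x j → P j = ∅ → ∑ v ∈ S j, u v = 0)
    (h3 : ∀ j, Held S t K x j → sg S x j * ∑ v ∈ S j, y v = 8 * K → ∑ v ∈ S j, u v = 0)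
    (h4 : ∀ z ∈ Fl x, Heavy S t K x P z →
      ∑ j ∈ hmem S t K x P z, sg S x j * ∑ v ∈ S j, u v = 0) : u = 0 := by
  classical
  have hyP := hy.1
  have hsum : ∀ (j : ι) (τ : ℝ), ∑ v ∈ S j, (y + τ • u) v
      = ∑ v ∈ S j, y v + τ * ∑ v ∈ S j, u v := by
    intro j τ
    simp only [Pi.add_apply, Pi.smul_apply, smul_eq_mul, sum_add_distrib, mul_sum]
  have hev : ∀ᶠ τ : ℝ in nhds 0, y + τ • u ∈ Poly S t K x P := by
    have e1 : ∀ᶠ τ : ℝ in nhds 0, ∀ v, |(y + τ • u) v| ≤ 1 := by
      rw [Filter.eventually_all]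
      intro v
      by_cases hv : v ∈ Fl x
      · have hlt : |y v| < 1 := by rw [← hFl] at hv; exact mem_Fl.mp hv
        have hc : Continuous (fun τ : ℝ => |(y + τ • u) v|) := by
          simp only [Pi.add_apply, Pi.smul_apply, smul_eq_mul]
          fun_prop
        have := hc.tendsto 0
        have h0 : |(y + (0:ℝ) • u) v| < 1 := by simpa using hlt
        exact (this.eventually_lt_const h0).mono fun τ hτ => hτ.le
      · refine Filter.Eventually.of_forall fun τ => ?_
        simp only [Pi.add_apply, Pi.smul_apply, smul_eq_mul, hu v hv, mul_zero, add_zero]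
        exact hyP.1.2 v
    have e2 : ∀ᶠ τ : ℝ in nhds 0, ∀ j, Held S t K x j →
        sg S x j * ∑ v ∈ S j, (y + τ • u) v ≤ 8 * K := by
      rw [Filter.eventually_all]
      intro j
      by_cases hj : Held S t K x j
      · by_cases ht : sg S x j * ∑ v ∈ S j, y v = 8 * K
        · refine Filter.Eventually.of_forall fun τ _ => ?_
          rw [hsum, h3 j hj ht, mul_zero, add_zero]
          exact ht.le
        · have hlt : sg S x j * ∑ v ∈ S j, y v < 8 * K := lt_of_le_of_ne (hyP.2.2.1 j hj) ht
          have hc : Continuous (fun τ : ℝ => sg S x j * ∑ v ∈ S j, (y + τ • u) v) := by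
            simp only [hsum]
            fun_prop
          have h0 : sg S x j * ∑ v ∈ S j, (y + (0:ℝ) • u) v < 8 * K := by
            rw [hsum]; simpa using hlt
          exact ((hc.tendsto 0).eventually_lt_const h0).mono fun τ hτ _ => hτ.le
      · exact Filter.Eventually.of_forall fun τ h => absurd h hj
    filter_upwards [e1, e2] with τ t1 t2
    refine ⟨⟨?_, t1⟩, ?_, t2, ?_, ?_⟩
    · intro v hv
      simp only [Pi.add_apply, Pi.smul_apply, smul_eq_mul, hu v hv, mul_zero, add_zero]
      exact hyP.1.1 v hv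
    · intro j hj
      rw [hsum, h1 j hj, mul_zero, add_zero]
      exact hyP.2.1 j hj
    · intro j hj hP
      rw [hsum, h2 j hj hP, mul_zero, add_zero]
      exact hyP.2.2.2.1 j hj hP
    · intro z hz hh
      have := hyP.2.2.2.2 z hz hh
      have h5 : ∑ j ∈ hmem S t K x P z, (4 * K + sg S x j * ∑ v ∈ S j, (y + τ • u) v)
          = ∑ j ∈ hmem S t K x P z, (4 * K + sg S x j * ∑ v ∈ S j, y v)
            + τ * ∑ j ∈ hmem S t K x P z, sg S x j * ∑ v ∈ S j, u v := by
        rw [mul_sum, ← sum_add_distrib]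
        refine sum_congr rfl fun j _ => ?_
        rw [hsum]; ring
      rw [h5, h4 z hz hh, mul_zero, add_zero]
      exact this
  rw [Metric.eventually_nhds_iff] at hev
  obtain ⟨ε, hε, hev⟩ := hev
  have hp : y + (ε / 2) • u ∈ Poly S t K x P := by
    apply hev
    rw [Real.dist_eq, sub_zero, abs_of_pos (by linarith)]
    linarith
  have hm : y + (-(ε / 2)) • u ∈ Poly S t K x P := by
    apply hev
    rw [Real.dist_eq, sub_zero, abs_neg, abs_of_pos (by linarith)]
    linarith
  have hseg : y ∈ openSegment ℝ (y + (ε / 2) • u) (y + (-(ε / 2)) • u) := by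
    refine ⟨1 / 2, 1 / 2, by norm_num, by norm_num, by norm_num, ?_⟩
    ext v
    simp only [Pi.add_apply, Pi.smul_apply, smul_eq_mul]
    ring
  have heq := hy.2 hp hm hseg
  have h6 : (ε / 2) • u = 0 := by
    have : y + (ε / 2) • u = y + 0 := by rw [add_zero]; exact heq
    exact add_left_cancel this
  rcases smul_eq_zero.mp h6 with h7 | h7
  · linarith
  · exact h7

end Pool.Agent.Helper66.BF
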