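import Mathlib
import Pool.Agent.Helper66.BF.Defs
import Pool.Agent.Helper66.BF.Poly

set_option autoImplicit false
set_option linter.unusedSectionVars false

/-!
# The invariants and their persistence under moves
-/

namespace Pool.Agent.Helper66.BF

open Finset

variable {V ι : Type*} [Fintype V] [DecidableEq V] [Fintype ι] [DecidableEq ι]

/-- the invariants of the process -/
structure Inv (S : ι → Finset V) (t K : ℕ) (x : V → ℝ) (P : ι → Finset V) : Prop where
  box : ∀ v, |x v| ≤ 1
  big : ∀ j, t + K < fl S x j → ∑ v ∈ S j, x v = 0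
  cap : ∀ j, Held S t K x j → sg S x j * ∑ v ∈ S j, x v ≤ 8 * K
  new : ∀ j, Held S t K x j → P j = ∅ → sg S x j * ∑ v ∈ S j, x v ≤ 0
  sub : ∀ j, P j ⊆ S j
  crd : ∀ j, P j ≠ ∅ → 45 * K ≤ (P j).card ∧ (P j).card ≤ 72 * K
  prog : ∀ j, P j ≠ ∅ → (P j \ Fl x).card + fl S x j ≤ t + K
  grp : ∀ z ∈ Fl x, ∑ j ∈ hmem S t K x P z, (4 * K + sg S x j * ∑ v ∈ S j, x v)
      ≤ (mem P z).card * (4 * K)
  gc : ∀ z, mem P z ≠ ∅ → 900 * K ≤ (mem P z).card

variable {S : ι → Finset V} {t K : ℕ} {x y : V → ℝ} {P : ι → Finset V}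

lemma mem_mem {j : ι} {z : V} : j ∈ mem P z ↔ z ∈ P j := by simp [mem]

lemma mem_hmem {j : ι} {z : V} : j ∈ hmem S t K x P z ↔ z ∈ P j ∧ Held S t K x j := by
  simp [hmem, mem]

lemma agree_self (hbox : ∀ v, |x v| ≤ 1) : Agree x x := ⟨fun _ _ => rfl, hbox⟩

lemma Inv.mem_poly (h : Inv S t K x P) : x ∈ Poly S t K x P :=
  ⟨agree_self h.box, h.big, h.cap, h.new, fun z hz _ => h.grp z hz⟩

lemma prog_mono (hag : Agree x y) {j : ι} (hsub : P j ⊆ S j)
    (hx : (P j \ Fl x).card + fl S x j ≤ t + K) : (P j \ Fl y).card + fl S y j ≤ t + K := by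
  refine le_trans ?_ hx
  have hs := Fl_subset hag
  have e1 : (P j \ Fl y).card ≤ (P j \ Fl x).card + (S j ∩ (Fl x \ Fl y)).card := by
    rw [← card_union_of_disjoint]
    · refine card_le_card ?_
      intro v hv
      rw [mem_sdiff] at hv
      rw [mem_union, mem_sdiff, mem_inter, mem_sdiff]
      by_cases h3 : v ∈ Fl x
      · right; exact ⟨hsub hv.1, h3, hv.2⟩
      · left; exact ⟨hv.1, h3⟩
    · rw [disjoint_left]
      intro v hv hv'
      simp only [mem_sdiff, mem_inter] at hv hv'
      exact hv.2 hv'.2.1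
  have e2 : (S j ∩ (Fl x \ Fl y)).card + fl S y j = fl S x j := by
    unfold fl
    rw [← card_union_of_disjoint]
    · congr 1
      ext v
      simp only [mem_sdiff, mem_union, mem_inter]
      constructor
      · rintro (⟨h1, h2, h3⟩ | ⟨h1, h2⟩)
        · exact ⟨h1, h2⟩
        · exact ⟨h1, hs h2⟩
      · rintro ⟨h1, h2⟩
        by_cases h3 : v ∈ Fl y
        · right; exact ⟨h1, h3⟩
        · left; exact ⟨h1, h2, h3⟩
    · rw [disjoint_left]
      intro v hv hv'
      simp only [mem_sdiff, mem_inter] at hv hv'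
      exact hv.2.2 hv'.2
  omega

/-- The invariants persist when moving inside the polytope. -/
lemma Inv.move (h : Inv S t K x P) (htK : 3 * K ≤ t) (hy : y ∈ Poly S t K x P) :
    Inv S t K y P := by
  classical
  obtain ⟨hag, hbig, hcap, hnew, hgrp⟩ := hy
  refine ⟨hag.2, ?_, ?_, ?_, h.sub, h.crd, ?_, ?_, h.gc⟩
  · intro j hj
    exact hbig j (lt_of_lt_of_le hj (fl_le hag))
  · intro j hj
    by_cases hx : fl S x j ≤ t + K
    · rw [sg_eq hag hx hj htK]
      exact hcap j (held_of_held hag hx hj)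
    · rw [hbig j (not_le.mp hx), mul_zero]
      positivity
  · intro j hj hP
    by_cases hx : fl S x j ≤ t + K
    · rw [sg_eq hag hx hj htK]
      exact hnew j (held_of_held hag hx hj) hP
    · rw [hbig j (not_le.mp hx), mul_zero]
  · intro j hP
    exact prog_mono hag (h.sub j) (h.prog j hP)
  · intro z hz
    have hzx := Fl_subset hag hz
    have hfl : ∀ j, z ∈ P j → fl S x j ≤ t + K := fun j hj => by
      have := h.prog j (ne_empty_of_mem hj)
      omega
    have hsub : hmem S t K y P z ⊆ hmem S t K x P z := by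
      intro j hj
      rw [mem_hmem] at hj ⊢
      exact ⟨hj.1, held_of_held hag (hfl j hj.1) hj.2⟩
    have h1 : ∑ j ∈ hmem S t K y P z, (4 * K + sg S y j * ∑ v ∈ S j, y v)
        = ∑ j ∈ hmem S t K y P z, (4 * K + sg S x j * ∑ v ∈ S j, y v) := by
      refine sum_congr rfl fun j hj => ?_
      rw [mem_hmem] at hj
      rw [sg_eq hag (hfl j hj.1) hj.2 htK]
    rw [h1]
    have h2 : ∑ j ∈ hmem S t K y P z, (4 * K + sg S x j * ∑ v ∈ S j, y v)
        ≤ ∑ j ∈ hmem S t K x P z, (4 * K + sg S x j * ∑ v ∈ S j, y v) := by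
      refine sum_le_sum_of_subset_of_nonneg hsub fun j hj _ => ?_
      rw [mem_hmem] at hj
      have := held_lower hj.2 hag
      linarith
    refine h2.trans ?_
    by_cases hh : Heavy S t K x P z
    · exact hgrp z hzx hh
    · unfold Heavy at hh
      rw [not_lt] at hh
      have h3 : ∑ j ∈ hmem S t K x P z, (4 * K + sg S x j * ∑ v ∈ S j, y v)
          ≤ ∑ j ∈ hmem S t K x P z, (12 * K : ℝ) := by
        refine sum_le_sum fun j hj => ?_
        rw [mem_hmem] at hj
        have := hcap j hj.2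
        linarith
      refine h3.trans ?_
      rw [sum_const, nsmul_eq_mul]
      have h4 : (3 * (hmem S t K x P z).card : ℝ) ≤ (mem P z).card := by exact_mod_cast hh
      have hK : (0:ℝ) ≤ K := Nat.cast_nonneg K
      nlinarith

/-! ### invariance under changes which keep the floating set -/

lemma fl_congr (hF : Fl y = Fl x) : fl S y = fl S x := by
  funext j; unfold fl; rw [hF]

lemma fx_congr (hag : Agree x y) (hF : Fl y = Fl x) : fx S y = fx S x := by
  funext j; unfold fx; rw [hF]
  exact sum_congr rfl fun v hv => hag.1 v (mem_sdiff.mp hv).2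

lemma sg_congr (hag : Agree x y) (hF : Fl y = Fl x) : sg S y = sg S x := by
  funext j; unfold sg; rw [fx_congr hag hF]

lemma held_congr (hag : Agree x y) (hF : Fl y = Fl x) : Held S t K y = Held S t K x := by
  funext j; unfold Held; rw [fx_congr hag hF, fl_congr hF]

lemma hmem_congr (hag : Agree x y) (hF : Fl y = Fl x) (z : V) :
    hmem S t K y P z = hmem S t K x P z := by
  ext j; rw [mem_hmem, mem_hmem, held_congr hag hF]

lemma poly_congr (hag : Agree x y) (hF : Fl y = Fl x) : Poly S t K y P = Poly S t K x P := by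
  ext w
  have h1 : Agree y w ↔ Agree x w := by
    unfold Agree
    rw [hF]
    constructor
    · rintro ⟨a, b⟩; exact ⟨fun v hv => (a v hv).trans (hag.1 v hv), b⟩
    · rintro ⟨a, b⟩; exact ⟨fun v hv => (a v hv).trans (hag.1 v hv).symm, b⟩
  simp only [Poly, Set.mem_ofPred_eq, Heavy, hmem_congr hag hF, h1, held_congr hag hF,
    sg_congr hag hF, fl_congr hF, hF]

end Pool.Agent.Helper66.BF
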