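import Mathlib
import Pool.Agent.Helper66.BF.State

set_option autoImplicit false
set_option linter.unusedSectionVars false

/-!
# Counting at an extreme point
-/

namespace Pool.Agent.Helper66.BF

open Finset
open Classical in
/-- big sets -/
noncomputable def Big {V ι : Type*} [Fintype V] [DecidableEq V] [Fintype ι] [DecidableEq ι]
    (S : ι → Finset V) (t K : ℕ) (x : V → ℝ) : Finset ι :=
  univ.filter (fun j => t + K < fl S x j)

open Classical in
/-- held sets without centres -/
noncomputable def New {V ι : Type*} [Fintype V] [DecidableEq V] [Fintype ι] [DecidableEq ι]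
    (S : ι → Finset V) (t K : ℕ) (x : V → ℝ) (P : ι → Finset V) : Finset ι :=
  univ.filter (fun j => Held S t K x j ∧ P j = ∅)

open Classical in
/-- held sets with centres -/
noncomputable def Old {V ι : Type*} [Fintype V] [DecidableEq V] [Fintype ι] [DecidableEq ι]
    (S : ι → Finset V) (t K : ℕ) (x : V → ℝ) (P : ι → Finset V) : Finset ι :=
  univ.filter (fun j => Held S t K x j ∧ P j ≠ ∅)

open Classical in
/-- tight sets -/
noncomputable def Ti {V ι : Type*} [Fintype V] [DecidableEq V] [Fintype ι] [DecidableEq ι]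
    (S : ι → Finset V) (t K : ℕ) (x : V → ℝ) (P : ι → Finset V) : Finset ι :=
  (Old S t K x P).filter (fun j => sg S x j * ∑ v ∈ S j, x v = 8 * K)

open Classical in
/-- heavy centres -/
noncomputable def Hv {V ι : Type*} [Fintype V] [DecidableEq V] [Fintype ι] [DecidableEq ι]
    (S : ι → Finset V) (t K : ℕ) (x : V → ℝ) (P : ι → Finset V) : Finset V :=
  (Fl x).filter (fun z => Heavy S t K x P z)

open Classical in
/-- sets which are neither big nor held -/
noncomputable def Done {V ι : Type*} [Fintype V] [DecidableEq V] [Fintype ι] [DecidableEq ι]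
    (S : ι → Finset V) (t K : ℕ) (x : V → ℝ) : Finset ι :=
  univ.filter (fun j => fl S x j ≤ t + K ∧ ¬ Held S t K x j)

variable {V ι : Type*} [Fintype V] [DecidableEq V] [Fintype ι] [DecidableEq ι]
variable {S : ι → Finset V} {t K : ℕ} {x : V → ℝ} {P : ι → Finset V}

lemma mem_Big {j : ι} : j ∈ Big S t K x ↔ t + K < fl S x j := by simp [Big]
lemma mem_New {j : ι} : j ∈ New S t K x P ↔ Held S t K x j ∧ P j = ∅ := by simp [New]
lemma mem_Old {j : ι} : j ∈ Old S t K x P ↔ Held S t K x j ∧ P j ≠ ∅ := by simp [Old]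
lemma mem_Ti {j : ι} : j ∈ Ti S t K x P ↔
    (Held S t K x j ∧ P j ≠ ∅) ∧ sg S x j * ∑ v ∈ S j, x v = 8 * K := by
  simp only [Ti, mem_filter, mem_Old]
lemma mem_Hv {z : V} : z ∈ Hv S t K x P ↔ z ∈ Fl x ∧ Heavy S t K x P z := by
  simp only [Hv, mem_filter]
lemma mem_Done {j : ι} : j ∈ Done S t K x ↔ fl S x j ≤ t + K ∧ ¬ Held S t K x j := by
  simp [Done]

/-- double counting of incidences -/
lemma sum_fl_le (hdeg : ∀ v, (univ.filter (fun j => v ∈ S j)).card ≤ t) :
    ∑ j, fl S x j ≤ t * (Fl x).card := by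
  have h1 : ∑ j, fl S x j = ∑ v ∈ Fl x, (univ.filter (fun j => v ∈ S j)).card := by
    simp only [fl, card_eq_sum_ones, sum_filter]
    have h2 : ∀ j, ∑ v ∈ S j ∩ Fl x, 1 = ∑ v ∈ Fl x, if v ∈ S j then 1 else 0 := by
      intro j
      rw [← sum_filter]
      refine sum_congr ?_ fun _ _ => rfl
      ext v; simp [and_comm]
    simp only [h2]
    rw [sum_comm]
  rw [h1]
  refine (sum_le_sum fun v _ => hdeg v).trans ?_
  rw [sum_const, smul_eq_mul, mul_comm]

lemma univ_split : (univ : Finset ι)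
    = Big S t K x ∪ (New S t K x P ∪ (Old S t K x P ∪ Done S t K x)) := by
  ext j
  simp only [mem_univ, mem_union, mem_Big, mem_New, mem_Old, mem_Done, true_iff]
  by_cases h1 : t + K < fl S x j
  · left; exact h1
  · right
    by_cases h2 : Held S t K x j
    · by_cases h3 : P j = ∅
      · left; exact ⟨h2, h3⟩
      · right; left; exact ⟨h2, h3⟩
    · right; right; exact ⟨not_lt.mp h1, h2⟩

lemma sum_split (f : ι → ℝ) : ∑ j, f j
    = ∑ j ∈ Big S t K x, f j + (∑ j ∈ New S t K x P, f j
      + (∑ j ∈ Old S t K x P, f j + ∑ j ∈ Done S t K x, f j)) := by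
  rw [univ_split (S := S) (t := t) (K := K) (x := x) (P := P), sum_union, sum_union, sum_union]
  · rw [disjoint_left]; intro j h1 h2
    rw [mem_Old] at h1; rw [mem_Done] at h2; exact h2.2 h1.1
  · rw [disjoint_left]; intro j h1 h2
    rw [mem_New] at h1; rw [mem_union, mem_Old, mem_Done] at h2
    rcases h2 with h2 | h2
    · exact h2.2 h1.2
    · exact h2.2 h1.1
  · rw [disjoint_left]; intro j h1 h2
    rw [mem_Big] at h1; rw [mem_union, mem_union, mem_New, mem_Old, mem_Done] at h2
    rcases h2 with h2 | h2 | h2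
    · exact absurd h2.1.1 (not_le.mpr h1)
    · exact absurd h2.1.1 (not_le.mpr h1)
    · exact absurd h2.1 (not_le.mpr h1)

/-- Lemma A: degree count -/
lemma count_deg (hI : Inv S t K x P) (hdeg : ∀ v, (univ.filter (fun j => v ∈ S j)).card ≤ t) :
    ((t:ℝ) + K) * (Big S t K x).card + ((t:ℝ) - 5 * K) * (New S t K x P).card
      + ((t:ℝ) - 5 * K) * (Old S t K x P).card + ∑ j ∈ Done S t K x, (fl S x j : ℝ)
      ≤ t * (Fl x).card := by
  have h1 : ((∑ j, fl S x j : ℕ) : ℝ) ≤ ((t * (Fl x).card : ℕ) : ℝ) := by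
    exact_mod_cast sum_fl_le hdeg
  push_cast at h1
  rw [sum_split (S := S) (t := t) (K := K) (x := x) (P := P)] at h1
  have h2 : ((t:ℝ) + K) * (Big S t K x).card ≤ ∑ j ∈ Big S t K x, (fl S x j : ℝ) := by
    rw [mul_comm, ← nsmul_eq_mul, ← sum_const]
    refine sum_le_sum fun j hj => ?_
    rw [mem_Big] at hj
    exact_mod_cast hj.le
  have h3 : ∀ j, Held S t K x j → (t:ℝ) - 5 * K ≤ fl S x j := fun j hj =>
    held_fl hj (agree_self hI.box) (hI.cap j hj)
  have h4 : ((t:ℝ) - 5 * K) * (New S t K x P).card ≤ ∑ j ∈ New S t K x P, (fl S x j : ℝ) := by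
    rw [mul_comm, ← nsmul_eq_mul, ← sum_const]
    exact sum_le_sum fun j hj => h3 j (mem_New.mp hj).1
  have h5 : ((t:ℝ) - 5 * K) * (Old S t K x P).card ≤ ∑ j ∈ Old S t K x P, (fl S x j : ℝ) := by
    rw [mul_comm, ← nsmul_eq_mul, ← sum_const]
    exact sum_le_sum fun j hj => h3 j (mem_Old.mp hj).1
  linarith

/-- Lemma B: first rank bound -/
lemma count_rank1 (hx : x ∈ (Poly S t K x P).extremePoints ℝ) :
    (Fl x).card ≤ (Big S t K x).card + (New S t K x P).card + (Old S t K x P).card := by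
  by_contra hlt
  push Not at hlt
  have hc : ((Big S t K x ∪ New S t K x P) ∪ Old S t K x P).card < (Fl x).card := by
    refine lt_of_le_of_lt ?_ hlt
    refine (card_union_le _ _).trans ?_
    exact Nat.add_le_add_right (card_union_le _ _) _
  obtain ⟨u, hu0, hu1, hu2⟩ := exists_kernel (Fl x)
    ((Big S t K x ∪ New S t K x P) ∪ Old S t K x P)
    (fun j => Phi S t K x P (Sum.inl j)) hc
  apply hu0
  have key : ∀ j, j ∈ (Big S t K x ∪ New S t K x P) ∪ Old S t K x P → ∑ v ∈ S j, u v = 0 := by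
    intro j hj
    have := hu2 j hj
    rwa [Phi_inl] at this
  have hheld : ∀ j, Held S t K x j → ∑ v ∈ S j, u v = 0 := by
    intro j hj
    apply key
    rw [mem_union, mem_union, mem_New, mem_Old]
    by_cases hP : P j = ∅
    · left; right; exact ⟨hj, hP⟩
    · right; exact ⟨hj, hP⟩
  refine extreme_no_dir hx rfl u hu1 ?_ (fun j hj _ => hheld j hj) (fun j hj _ => hheld j hj) ?_
  · intro j hj
    apply key
    rw [mem_union, mem_union, mem_Big]
    left; left; exact hj
  · intro z _ _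
    refine sum_eq_zero fun j hj => ?_
    rw [mem_hmem] at hj
    rw [hheld j hj.2, mul_zero]

/-- Lemma C: second rank bound -/
lemma count_rank2 (hx : x ∈ (Poly S t K x P).extremePoints ℝ) :
    (Fl x).card ≤ (Big S t K x).card + (New S t K x P).card + (Ti S t K x P).card
      + (Hv S t K x P).card := by
  classical
  by_contra hlt
  push Not at hlt
  let I : Finset (ι ⊕ V) := ((Big S t K x ∪ New S t K x P) ∪ Ti S t K x P).image Sum.inl
    ∪ (Hv S t K x P).image Sum.inr
  have hc : I.card < (Fl x).card := by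
    refine lt_of_le_of_lt ?_ hlt
    refine (card_union_le _ _).trans ?_
    refine Nat.add_le_add (card_image_le.trans ?_) card_image_le
    refine (card_union_le _ _).trans ?_
    exact Nat.add_le_add_right (card_union_le _ _) _
  obtain ⟨u, hu0, hu1, hu2⟩ := exists_kernel (Fl x) I (Phi S t K x P) hc
  apply hu0
  have key : ∀ j, j ∈ (Big S t K x ∪ New S t K x P) ∪ Ti S t K x P → ∑ v ∈ S j, u v = 0 := by
    intro j hj
    have := hu2 (Sum.inl j) (mem_union_left _ (mem_image_of_mem _ hj))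
    rwa [Phi_inl] at this
  refine extreme_no_dir hx rfl u hu1 ?_ ?_ ?_ ?_
  · intro j hj
    apply key
    rw [mem_union, mem_union, mem_Big]
    left; left; exact hj
  · intro j hj hP
    apply key
    rw [mem_union, mem_union, mem_New]
    left; right; exact ⟨hj, hP⟩
  · intro j hj ht
    apply key
    rw [mem_union, mem_union, mem_New, mem_Ti]
    by_cases hP : P j = ∅
    · left; right; exact ⟨hj, hP⟩
    · right; exact ⟨⟨hj, hP⟩, ht⟩
  · intro z hz hh
    have := hu2 (Sum.inr z) (mem_union_right _ (mem_image_of_mem _ (mem_Hv.mpr ⟨hz, hh⟩)))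
    rwa [Phi_inr] at this

/-- double counting over centres -/
lemma sum_centres (J : Finset ι) :
    ∑ z ∈ Fl x, (J.filter (fun j => z ∈ P j)).card = ∑ j ∈ J, (P j ∩ Fl x).card := by
  simp only [card_eq_sum_ones, sum_filter]
  rw [sum_comm]
  refine sum_congr rfl fun j _ => ?_
  rw [← sum_filter]
  refine sum_congr ?_ fun _ _ => rfl
  ext z; simp [and_comm]

/-- floating centres of held sets -/
lemma held_centres (hI : Inv S t K x P) {j : ι} (hj : Held S t K x j) (hP : P j ≠ ∅) :
    39 * K ≤ (P j ∩ Fl x).card := by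
  have h1 := held_fl hj (agree_self hI.box) (hI.cap j hj)
  have h2 := hI.prog j hP
  have h3 := (hI.crd j hP).1
  have h4 : (P j \ Fl x).card + (P j ∩ Fl x).card = (P j).card := card_sdiff_add_card_inter _ _
  have h5 : (t:ℝ) ≤ fl S x j + 5 * K := by linarith
  have h6 : t ≤ fl S x j + 5 * K := by exact_mod_cast h5
  omega

/-- few tight members at each centre -/
lemma tight_at (hI : Inv S t K x P) (hK : 1 ≤ K) {z : V} (hz : z ∈ Fl x) :
    3 * ((Ti S t K x P).filter (fun j => z ∈ P j)).card ≤ (mem P z).card := by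
  classical
  have h1 := hI.grp z hz
  have hsub : (Ti S t K x P).filter (fun j => z ∈ P j) ⊆ hmem S t K x P z := by
    intro j hj
    rw [mem_filter, mem_Ti] at hj
    rw [mem_hmem]
    exact ⟨hj.2, hj.1.1.1⟩
  have h2 : ∑ j ∈ (Ti S t K x P).filter (fun j => z ∈ P j), (4 * K + sg S x j * ∑ v ∈ S j, x v)
      ≤ ∑ j ∈ hmem S t K x P z, (4 * K + sg S x j * ∑ v ∈ S j, x v) := by
    refine sum_le_sum_of_subset_of_nonneg hsub fun j hj _ => ?_
    rw [mem_hmem] at hj
    have := held_lower hj.2 (agree_self hI.box)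
    linarith
  have h3 : ∑ j ∈ (Ti S t K x P).filter (fun j => z ∈ P j), (4 * K + sg S x j * ∑ v ∈ S j, x v)
      = ((Ti S t K x P).filter (fun j => z ∈ P j)).card * (12 * K : ℝ) := by
    rw [← nsmul_eq_mul, ← sum_const]
    refine sum_congr rfl fun j hj => ?_
    rw [mem_filter, mem_Ti] at hj
    rw [hj.1.2]; ring
  rw [h3] at h2
  have h4 := h2.trans h1
  have hKpos : (0:ℝ) < 4 * K := by
    have : (1:ℝ) ≤ K := by exact_mod_cast hK
    linarith
  have h5 : (4 * K : ℝ) * (3 * ((Ti S t K x P).filter (fun j => z ∈ P j)).card)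
      ≤ (4 * K) * (mem P z).card := by linarith
  have h6 := le_of_mul_le_mul_left h5 hKpos
  exact_mod_cast h6

/-- Lemma D -/
lemma count_tight (hI : Inv S t K x P) (hK : 1 ≤ K) :
    (117 * K : ℝ) * (Ti S t K x P).card
      ≤ 72 * K * (Old S t K x P).card + ∑ j ∈ Done S t K x, (fl S x j : ℝ) := by
  classical
  have h1 : 39 * K * (Ti S t K x P).card ≤ ∑ j ∈ Ti S t K x P, (P j ∩ Fl x).card := by
    rw [mul_comm, ← smul_eq_mul, ← sum_const]
    refine sum_le_sum fun j hj => ?_
    rw [mem_Ti] at hj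
    exact held_centres hI hj.1.1 hj.1.2
  rw [← sum_centres] at h1
  have h2 : 3 * ∑ z ∈ Fl x, ((Ti S t K x P).filter (fun j => z ∈ P j)).card
      ≤ ∑ z ∈ Fl x, (mem P z).card := by
    rw [mul_sum]
    exact sum_le_sum fun z hz => tight_at hI hK hz
  have h3 : ∑ z ∈ Fl x, (mem P z).card = ∑ j, (P j ∩ Fl x).card := by
    rw [← sum_centres]; rfl
  have h4 : ((∑ j, (P j ∩ Fl x).card : ℕ) : ℝ)
      ≤ 72 * K * (Old S t K x P).card + ∑ j ∈ Done S t K x, (fl S x j : ℝ) := by
    push_cast
    rw [sum_split (S := S) (t := t) (K := K) (x := x) (P := P)]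
    have e1 : ∑ j ∈ Big S t K x, ((P j ∩ Fl x).card : ℝ) = 0 := by
      refine sum_eq_zero fun j hj => ?_
      rw [mem_Big] at hj
      have : P j = ∅ := by
        by_contra hP
        have := hI.prog j hP
        omega
      simp [this]
    have e2 : ∑ j ∈ New S t K x P, ((P j ∩ Fl x).card : ℝ) = 0 := by
      refine sum_eq_zero fun j hj => ?_
      rw [mem_New] at hj
      simp [hj.2]
    have e3 : ∑ j ∈ Old S t K x P, ((P j ∩ Fl x).card : ℝ) ≤ 72 * K * (Old S t K x P).card := by
      rw [mul_comm, ← nsmul_eq_mul, ← sum_const]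
      refine sum_le_sum fun j hj => ?_
      rw [mem_Old] at hj
      have h5 := (hI.crd j hj.2).2
      have h6 : (P j ∩ Fl x).card ≤ (P j).card := card_le_card inter_subset_left
      exact_mod_cast h6.trans h5
    have e4 : ∑ j ∈ Done S t K x, ((P j ∩ Fl x).card : ℝ)
        ≤ ∑ j ∈ Done S t K x, (fl S x j : ℝ) := by
      refine sum_le_sum fun j _ => ?_
      have : (P j ∩ Fl x).card ≤ fl S x j := card_le_card (inter_subset_inter_right (hI.sub j))
      exact_mod_cast this
    linarith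
  have h5 : 117 * K * (Ti S t K x P).card ≤ ∑ j, (P j ∩ Fl x).card := by
    rw [← h3]
    calc 117 * K * (Ti S t K x P).card = 3 * (39 * K * (Ti S t K x P).card) := by ring
      _ ≤ 3 * ∑ z ∈ Fl x, ((Ti S t K x P).filter (fun j => z ∈ P j)).card :=
        Nat.mul_le_mul_left _ h1
      _ ≤ _ := h2
  have h6 : ((117 * K * (Ti S t K x P).card : ℕ) : ℝ)
      ≤ ((∑ j, (P j ∩ Fl x).card : ℕ) : ℝ) := by exact_mod_cast h5
  push_cast at h6 h4
  linarith

/-- Lemma E -/
lemma count_heavy (hI : Inv S t K x P) (hK : 1 ≤ K) :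
    (300 : ℝ) * (Hv S t K x P).card ≤ 72 * (Old S t K x P).card := by
  classical
  have h1 : 300 * K * (Hv S t K x P).card ≤ ∑ z ∈ Hv S t K x P, (hmem S t K x P z).card := by
    rw [mul_comm, ← smul_eq_mul, ← sum_const]
    refine sum_le_sum fun z hz => ?_
    rw [mem_Hv] at hz
    have hh := hz.2
    unfold Heavy at hh
    have hne : mem P z ≠ ∅ := by
      intro h0
      have : hmem S t K x P z = ∅ := by
        unfold hmem; rw [h0]; exact filter_empty _
      rw [h0, this] at hh
      simp at hh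
    have := hI.gc z hne
    omega
  have h2 : ∑ z ∈ Hv S t K x P, (hmem S t K x P z).card
      ≤ ∑ z ∈ Fl x, (hmem S t K x P z).card :=
    sum_le_sum_of_subset (filter_subset _ _)
  have h3 : ∑ z ∈ Fl x, (hmem S t K x P z).card = ∑ j ∈ Old S t K x P, (P j ∩ Fl x).card := by
    rw [← sum_centres]
    refine sum_congr rfl fun z _ => ?_
    congr 1
    ext j
    rw [mem_hmem, mem_filter, mem_Old]
    constructor
    · rintro ⟨a, b⟩; exact ⟨⟨b, ne_empty_of_mem a⟩, a⟩
    · rintro ⟨⟨a, _⟩, b⟩; exact ⟨b, a⟩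
  have h4 : ∑ j ∈ Old S t K x P, (P j ∩ Fl x).card ≤ 72 * K * (Old S t K x P).card := by
    rw [mul_comm, ← smul_eq_mul, ← sum_const]
    refine sum_le_sum fun j hj => ?_
    rw [mem_Old] at hj
    exact (card_le_card inter_subset_left).trans (hI.crd j hj.2).2
  have h5 : K * (300 * (Hv S t K x P).card) ≤ K * (72 * (Old S t K x P).card) := by
    calc K * (300 * (Hv S t K x P).card) = 300 * K * (Hv S t K x P).card := by ring
      _ ≤ 72 * K * (Old S t K x P).card := h1.trans (h2.trans (h3.le.trans h4))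
      _ = K * (72 * (Old S t K x P).card) := by ring
  have h6 := Nat.le_of_mul_le_mul_left h5 (by omega)
  exact_mod_cast h6

/-- arithmetic core -/
lemma arith {t K n b N N' T H D : ℝ} (hK : 1 ≤ K) (ht : 200000 * K ≤ t)
    (hb : 0 ≤ b) (hN : 0 ≤ N) (hN' : 0 ≤ N') (hT : 0 ≤ T) (hH : 0 ≤ H) (hD : 0 ≤ D) (hn : 1 ≤ n)
    (A : (t + K) * b + (t - 5 * K) * N + (t - 5 * K) * N' + D ≤ t * n)
    (B : n ≤ b + N + N') (C : n ≤ b + N + T + H)
    (E : 117 * K * T ≤ 72 * K * N' + D) (G : 300 * H ≤ 72 * N') :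
    0 < N ∧ 25 * (900 * K) * n ≤ (t - 77 * K) * N := by
  have ht0 : 0 < t := by linarith
  have hK0 : 0 < K := by linarith
  have h1 : K * b + D ≤ 5 * K * (N + N') := by nlinarith
  have h2 : b ≤ 5 * (N + N') := by
    have : K * b ≤ K * (5 * (N + N')) := by nlinarith
    exact le_of_mul_le_mul_left this hK0
  have h3 : n ≤ 6 * (N + N') := by linarith
  have h4 : D ≤ 5 * K * (N + N') := by nlinarith [mul_nonneg hK0.le hb]
  have h5 : t * N' ≤ t * (T + H) + 5 * K * (N + N') := by
    nlinarith [mul_nonneg hK0.le hb]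
  -- `117 T ≤ 72 N' + 5 (N+N')`
  have h6 : 117 * T ≤ 72 * N' + 5 * (N + N') := by
    have : K * (117 * T) ≤ K * (72 * N' + 5 * (N + N')) := by nlinarith
    exact le_of_mul_le_mul_left this hK0
  have h7 : 200000 * N' ≤ 200000 * (T + H) + 5 * (N + N') := by
    by_contra hc
    push Not at hc
    have hS : 0 ≤ N + N' := by linarith
    have e1 : 5 * K * (N + N') * 200000 ≤ 5 * t * (N + N') := by nlinarith
    have e2 : t * (200000 * (T + H) + 5 * (N + N')) < t * (200000 * N') :=
      mul_lt_mul_of_pos_left hc ht0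
    nlinarith
  have h8 : N' ≤ 0.2958 * (N + N') := by linarith
  have h9 : 0.7042 * (N + N') ≤ N := by linarith
  have h10 : 0 < N := by linarith
  refine ⟨h10, ?_⟩
  have h11 : 25 * (900 * K) * n ≤ 135000 * K * (N + N') := by nlinarith
  have h12 : 135000 * K * (N + N') ≤ (t - 77 * K) * (0.7042 * (N + N')) := by nlinarith
  have h13 : (t - 77 * K) * (0.7042 * (N + N')) ≤ (t - 77 * K) * N :=
    mul_le_mul_of_nonneg_left h9 (by linarith)
  linarith

end Pool.Agent.Helper66.BF
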