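import Mathlib

set_option autoImplicit false
set_option linter.unusedSectionVars false

/-!
# A sparse bipartite subgraph with prescribed degrees

In a bipartite graph in which the left degrees are very large compared with `g·|F|/|U|` there is a
nonempty subgraph whose nonzero left degrees lie in `[m,M]` and whose nonzero right degrees are
at least `g`.
-/

namespace Pool.Agent.Helper66.BF

open Finset

variable {V ι : Type*} [DecidableEq V] [DecidableEq ι]

/-- the value maximised in the extremal choice -/
def psi (m g : ℕ) (H : Finset (ι × V)) : ℤ :=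
  (H.card : ℤ) - m * (H.image Prod.fst).card - g * (H.image Prod.snd).card

/-- pruning: from a subgraph with positive value one gets all degrees large -/
lemma exists_prune (m g : ℕ) (H₀ : Finset (ι × V)) (h₀ : 0 < psi m g H₀) :
    ∃ H : Finset (ι × V), H ⊆ H₀ ∧ H.Nonempty ∧
      (∀ p ∈ H, m ≤ (H.filter (fun q => q.1 = p.1)).card) ∧
      (∀ p ∈ H, g ≤ (H.filter (fun q => q.2 = p.2)).card) := by
  obtain ⟨H, hH, hmax⟩ := exists_max_image H₀.powerset (psi m g) ⟨H₀, mem_powerset_self H₀⟩
  have hsub := mem_powerset.mp hH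
  have hpos : 0 < psi m g H := lt_of_lt_of_le h₀ (hmax H₀ (mem_powerset_self H₀))
  refine ⟨H, hsub, ?_, ?_, ?_⟩
  · rw [nonempty_iff_ne_empty]
    rintro rfl
    simp [psi] at hpos
  · intro p hp
    by_contra hlt
    push Not at hlt
    have h1 := hmax (H.filter (fun q => q.1 ≠ p.1))
      (mem_powerset.mpr ((filter_subset _ _).trans hsub))
    have h2 : (H.filter (fun q => q.1 = p.1)).card + (H.filter (fun q => q.1 ≠ p.1)).card
        = H.card := card_filter_add_card_filter_not _
    have h3 : ((H.filter (fun q => q.1 ≠ p.1)).image Prod.fst).card + 1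
        ≤ (H.image Prod.fst).card := by
      have : (H.filter (fun q => q.1 ≠ p.1)).image Prod.fst ⊆ (H.image Prod.fst).erase p.1 := by
        intro a ha
        obtain ⟨q, hq, rfl⟩ := mem_image.mp ha
        rw [mem_filter] at hq
        exact mem_erase.mpr ⟨hq.2, mem_image_of_mem _ hq.1⟩
      have h4 := card_le_card this
      have h5 : p.1 ∈ H.image Prod.fst := mem_image_of_mem _ hp
      rw [card_erase_of_mem h5] at h4
      have h6 : 0 < (H.image Prod.fst).card := card_pos.mpr ⟨_, h5⟩
      omega
    have h7 : ((H.filter (fun q => q.1 ≠ p.1)).image Prod.snd).card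
        ≤ (H.image Prod.snd).card := card_le_card (image_subset_image (filter_subset _ _))
    unfold psi at h1
    have h3' : (m:ℤ) * (((H.filter (fun q => q.1 ≠ p.1)).image Prod.fst).card : ℤ) + m
        ≤ m * ((H.image Prod.fst).card : ℤ) := by
      have : (((H.filter (fun q => q.1 ≠ p.1)).image Prod.fst).card : ℤ) + 1
        ≤ ((H.image Prod.fst).card : ℤ) := by exact_mod_cast h3
      nlinarith [Int.natCast_nonneg m]
    have h7' : (g:ℤ) * (((H.filter (fun q => q.1 ≠ p.1)).image Prod.snd).card : ℤ)
        ≤ g * ((H.image Prod.snd).card : ℤ) :=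
      mul_le_mul_of_nonneg_left (by exact_mod_cast h7) (Int.natCast_nonneg g)
    have h2' : ((H.filter (fun q => q.1 = p.1)).card : ℤ)
        + ((H.filter (fun q => q.1 ≠ p.1)).card : ℤ) = H.card := by exact_mod_cast h2
    have hlt' : ((H.filter (fun q => q.1 = p.1)).card : ℤ) < m := by exact_mod_cast hlt
    linarith
  · intro p hp
    by_contra hlt
    push Not at hlt
    have h1 := hmax (H.filter (fun q => q.2 ≠ p.2))
      (mem_powerset.mpr ((filter_subset _ _).trans hsub))
    have h2 : (H.filter (fun q => q.2 = p.2)).card + (H.filter (fun q => q.2 ≠ p.2)).card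
        = H.card := card_filter_add_card_filter_not _
    have h3 : ((H.filter (fun q => q.2 ≠ p.2)).image Prod.snd).card + 1
        ≤ (H.image Prod.snd).card := by
      have : (H.filter (fun q => q.2 ≠ p.2)).image Prod.snd ⊆ (H.image Prod.snd).erase p.2 := by
        intro a ha
        obtain ⟨q, hq, rfl⟩ := mem_image.mp ha
        rw [mem_filter] at hq
        exact mem_erase.mpr ⟨hq.2, mem_image_of_mem _ hq.1⟩
      have h4 := card_le_card this
      have h5 : p.2 ∈ H.image Prod.snd := mem_image_of_mem _ hp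
      rw [card_erase_of_mem h5] at h4
      have h6 : 0 < (H.image Prod.snd).card := card_pos.mpr ⟨_, h5⟩
      omega
    have h7 : ((H.filter (fun q => q.2 ≠ p.2)).image Prod.fst).card
        ≤ (H.image Prod.fst).card := card_le_card (image_subset_image (filter_subset _ _))
    unfold psi at h1
    have h3' : (g:ℤ) * (((H.filter (fun q => q.2 ≠ p.2)).image Prod.snd).card : ℤ) + g
        ≤ g * ((H.image Prod.snd).card : ℤ) := by
      have : (((H.filter (fun q => q.2 ≠ p.2)).image Prod.snd).card : ℤ) + 1
        ≤ ((H.image Prod.snd).card : ℤ) := by exact_mod_cast h3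
      nlinarith [Int.natCast_nonneg g]
    have h7' : (m:ℤ) * (((H.filter (fun q => q.2 ≠ p.2)).image Prod.fst).card : ℤ)
        ≤ m * ((H.image Prod.fst).card : ℤ) :=
      mul_le_mul_of_nonneg_left (by exact_mod_cast h7) (Int.natCast_nonneg m)
    have h2' : ((H.filter (fun q => q.2 = p.2)).card : ℤ)
        + ((H.filter (fun q => q.2 ≠ p.2)).card : ℤ) = H.card := by exact_mod_cast h2
    have hlt' : ((H.filter (fun q => q.2 = p.2)).card : ℤ) < g := by exact_mod_cast hlt
    linarith

/-- The star-forest lemma. -/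
theorem exists_stars (U : Finset ι) (F : Finset V) (T : ι → Finset V) (m M g l : ℕ)
    (hm : 25 * m < 16 * M) (hl : 1 ≤ l) (hU : U.Nonempty) (hT : ∀ j ∈ U, T j ⊆ F)
    (hTc : ∀ j ∈ U, l + M ≤ (T j).card) (hF : 25 * g * F.card ≤ l * U.card) :
    ∃ H : Finset (ι × V), H.Nonempty ∧ (∀ p ∈ H, p.1 ∈ U ∧ p.2 ∈ T p.1) ∧
      (∀ p ∈ H, m ≤ (H.filter (fun q => q.1 = p.1)).card ∧
        (H.filter (fun q => q.1 = p.1)).card ≤ M) ∧
      (∀ p ∈ H, g ≤ (H.filter (fun q => q.2 = p.2)).card) := by
  classical
  -- choice of `B`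
  let h : Finset V → ℕ := fun B => ∑ j ∈ U, min M (T j ∩ B).card
  obtain ⟨B, hB, hmax⟩ := exists_max_image F.powerset (fun B => (h B : ℤ) - 5 * g * B.card)
    ⟨∅, empty_mem_powerset F⟩
  have hBF := mem_powerset.mp hB
  set Un : Finset ι := U.filter (fun j => (T j ∩ B).card < M) with hUn
  -- marginal gains
  have hgain : ∀ z ∈ F \ B, (Un.filter (fun j => z ∈ T j)).card ≤ 5 * g := by
    intro z hz
    rw [mem_sdiff] at hz
    have h1 := hmax (insert z B) (mem_powerset.mpr (insert_subset hz.1 hBF))
    have h2 : h B + (Un.filter (fun j => z ∈ T j)).card ≤ h (insert z B) := by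
      have h3 : (Un.filter (fun j => z ∈ T j)).card
          = ∑ j ∈ U, if ((T j ∩ B).card < M ∧ z ∈ T j) then 1 else 0 := by
        rw [hUn, filter_filter, card_filter]
      rw [h3]
      show ∑ j ∈ U, min M (T j ∩ B).card + _ ≤ ∑ j ∈ U, min M (T j ∩ insert z B).card
      rw [← sum_add_distrib]
      refine sum_le_sum fun j _ => ?_
      have h4 : (T j ∩ B).card ≤ (T j ∩ insert z B).card :=
        card_le_card (inter_subset_inter_left (subset_insert _ _))
      split_ifs with hc
      · have h5 : (T j ∩ B).card + 1 ≤ (T j ∩ insert z B).card := by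
          have : insert z (T j ∩ B) ⊆ T j ∩ insert z B := by
            intro a ha
            rcases mem_insert.mp ha with rfl | ha
            · exact mem_inter.mpr ⟨hc.2, mem_insert_self _ _⟩
            · rw [mem_inter] at ha
              exact mem_inter.mpr ⟨ha.1, mem_insert_of_mem ha.2⟩
          have h6 := card_le_card this
          rwa [card_insert_of_notMem (fun hh => hz.2 (mem_inter.mp hh).2)] at h6
        omega
      · omega
    have h7 : ((insert z B).card : ℤ) = B.card + 1 := by
      rw [card_insert_of_notMem hz.2]; push_cast; ring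
    have h8 : (h B : ℤ) + (Un.filter (fun j => z ∈ T j)).card ≤ h (insert z B) := by
      exact_mod_cast h2
    rw [h7] at h1
    have : ((Un.filter (fun j => z ∈ T j)).card : ℤ) ≤ 5 * g := by linarith
    exact_mod_cast this
  -- few unsatisfied sets
  have hUncard : 5 * Un.card ≤ U.card := by
    have h1 : l * Un.card ≤ ∑ j ∈ Un, (T j \ B).card := by
      rw [mul_comm, ← smul_eq_mul, ← sum_const]
      refine sum_le_sum fun j hj => ?_
      rw [hUn, mem_filter] at hj
      have h2 := hTc j hj.1
      have h3 : (T j \ B).card + (T j ∩ B).card = (T j).card := card_sdiff_add_card_inter _ _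
      omega
    have h2 : ∑ j ∈ Un, (T j \ B).card = ∑ z ∈ F \ B, (Un.filter (fun j => z ∈ T j)).card := by
      simp only [card_eq_sum_ones, sum_filter]
      rw [sum_comm]
      refine sum_congr rfl fun j hj => ?_
      rw [hUn, mem_filter] at hj
      rw [← sum_filter]
      refine sum_congr ?_ fun _ _ => rfl
      ext z
      simp only [mem_sdiff, mem_filter]
      constructor
      · rintro ⟨h1, h2⟩; exact ⟨⟨hT j hj.1 h1, h2⟩, h1⟩
      · rintro ⟨⟨_, h2⟩, h3⟩; exact ⟨h3, h2⟩
    have h3 : ∑ z ∈ F \ B, (Un.filter (fun j => z ∈ T j)).card ≤ F.card * (5 * g) := by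
      refine (sum_le_card_nsmul _ _ _ hgain).trans ?_
      rw [smul_eq_mul]
      exact Nat.mul_le_mul_right _ (card_le_card sdiff_subset)
    have h4 : l * (5 * Un.card) ≤ l * U.card := by
      calc l * (5 * Un.card) = 5 * (l * Un.card) := by ring
        _ ≤ 5 * (F.card * (5 * g)) := by
          refine Nat.mul_le_mul_left _ ?_
          exact h1.trans (h2.le.trans h3)
        _ = 25 * g * F.card := by ring
        _ ≤ l * U.card := hF
    exact Nat.le_of_mul_le_mul_left h4 (by omega)
  -- value of `B`
  have hhB : M * (U.card - Un.card) ≤ h B := by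
    have h1 : (U \ Un).card = U.card - Un.card := card_sdiff_of_subset (filter_subset _ _)
    rw [← h1]
    calc M * (U \ Un).card = ∑ j ∈ U \ Un, M := by rw [sum_const, smul_eq_mul, mul_comm]
      _ ≤ ∑ j ∈ U \ Un, min M (T j ∩ B).card := by
        refine sum_le_sum fun j hj => ?_
        rw [hUn, mem_sdiff, mem_filter] at hj
        have : ¬ ((T j ∩ B).card < M) := fun hh => hj.2 ⟨hj.1, hh⟩
        omega
      _ ≤ h B := sum_le_sum_of_subset sdiff_subset
  have hgB : 5 * g * B.card ≤ h B := by
    have h1 := hmax ∅ (empty_mem_powerset F)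
    have h2 : h ∅ = 0 := by simp [h]
    simp only [h2, card_empty] at h1
    have : (5 * g * B.card : ℤ) ≤ h B := by push_cast at h1; linarith
    exact_mod_cast this
  -- the initial graph
  have hex : ∀ j : ι, ∃ R ⊆ T j ∩ B, R.card = min M (T j ∩ B).card := fun j =>
    exists_subset_card_eq (min_le_right _ _)
  choose R hR1 hR2 using hex
  let H₀ : Finset (ι × V) := U.biUnion (fun j => (R j).image (fun z => (j, z)))
  have hmemH₀ : ∀ p : ι × V, p ∈ H₀ ↔ p.1 ∈ U ∧ p.2 ∈ R p.1 := by
    intro p
    simp only [H₀, mem_biUnion, mem_image]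
    constructor
    · rintro ⟨j, hj, z, hz, rfl⟩; exact ⟨hj, hz⟩
    · rintro ⟨h1, h2⟩; exact ⟨p.1, h1, p.2, h2, rfl⟩
  have hH₀card : H₀.card = h B := by
    show (U.biUnion _).card = ∑ j ∈ U, min M (T j ∩ B).card
    rw [card_biUnion]
    · refine sum_congr rfl fun j _ => ?_
      rw [card_image_of_injective _ (fun a b hab => (Prod.mk.inj hab).2), hR2]
    · intro i _ j _ hij
      rw [Function.onFun, disjoint_left]
      intro p hp hp'
      obtain ⟨a, _, rfl⟩ := mem_image.mp hp
      obtain ⟨b, _, hb⟩ := mem_image.mp hp'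
      exact hij (Prod.mk.inj hb).1.symm
  have hdeg : ∀ j, (H₀.filter (fun q => q.1 = j)).card ≤ M := by
    intro j
    have : H₀.filter (fun q => q.1 = j) ⊆ (R j).image (fun z => (j, z)) := by
      intro p hp
      rw [mem_filter, hmemH₀] at hp
      rw [mem_image]
      refine ⟨p.2, ?_, ?_⟩
      · rw [← hp.2]; exact hp.1.2
      · rw [← hp.2]
    refine (card_le_card this).trans (card_image_le.trans ?_)
    rw [hR2]; exact min_le_left _ _
  have hpsi : 0 < psi m g H₀ := by
    unfold psi
    have h1 : (H₀.image Prod.fst).card ≤ U.card := by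
      refine card_le_card ?_
      intro a ha
      obtain ⟨q, hq, rfl⟩ := mem_image.mp ha
      exact ((hmemH₀ q).mp hq).1
    have h2 : (H₀.image Prod.snd).card ≤ B.card := by
      refine card_le_card ?_
      intro a ha
      obtain ⟨q, hq, rfl⟩ := mem_image.mp ha
      exact (mem_inter.mp (hR1 _ ((hmemH₀ q).mp hq).2)).2
    rw [hH₀card]
    have h1' : (m:ℤ) * ((H₀.image Prod.fst).card : ℤ) ≤ m * U.card :=
      mul_le_mul_of_nonneg_left (by exact_mod_cast h1) (Int.natCast_nonneg m)
    have h2' : (g:ℤ) * ((H₀.image Prod.snd).card : ℤ) ≤ g * B.card :=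
      mul_le_mul_of_nonneg_left (by exact_mod_cast h2) (Int.natCast_nonneg g)
    have h3 : (5 * g * B.card : ℤ) ≤ h B := by exact_mod_cast hgB
    have h4 : (M * (U.card - Un.card) : ℤ) ≤ h B := by
      have h5 : Un.card ≤ U.card := card_le_card (filter_subset _ _)
      have : ((M * (U.card - Un.card) : ℕ) : ℤ) ≤ h B := by exact_mod_cast hhB
      rw [Nat.cast_mul, Nat.cast_sub h5] at this
      push_cast at this
      linarith
    have h6 : (5 * Un.card : ℤ) ≤ U.card := by exact_mod_cast hUncard
    have h7 : (1:ℤ) ≤ U.card := by exact_mod_cast card_pos.mpr hU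
    have h8 : (25 * m + 1:ℤ) ≤ 16 * M := by exact_mod_cast hm
    have h9 : (M:ℤ) * (5 * Un.card) ≤ M * U.card :=
      mul_le_mul_of_nonneg_left h6 (Int.natCast_nonneg M)
    have h10 : (25 * m + 1:ℤ) * U.card ≤ 16 * M * U.card :=
      mul_le_mul_of_nonneg_right h8 (by linarith)
    have h11 : (4:ℤ) * (M * U.card) ≤ 5 * h B := by nlinarith
    nlinarith
  obtain ⟨H, hsub, hne, hL, hR⟩ := exists_prune m g H₀ hpsi
  refine ⟨H, hne, ?_, ?_, hR⟩
  · intro p hp
    have := (hmemH₀ p).mp (hsub hp)
    exact ⟨this.1, (mem_inter.mp (hR1 _ this.2)).1⟩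
  · intro p hp
    exact ⟨hL p hp, (card_le_card (filter_subset_filter _ hsub)).trans (hdeg p.1)⟩

end Pool.Agent.Helper66.BF
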