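import Mathlib
import Pool.Agent.Helper66.BF.Count
import Pool.Agent.Helper66.BF.Stars

set_option autoImplicit false
set_option linter.unusedSectionVars false

/-!
# Creating new groups of centres at an extreme point
-/

namespace Pool.Agent.Helper66.BF

open Finset

variable {V ι : Type*} [Fintype V] [DecidableEq V] [Fintype ι] [DecidableEq ι]
variable {S : ι → Finset V} {t K : ℕ} {x : V → ℝ} {P : ι → Finset V}

/-- number of sets without centres -/
def free (P : ι → Finset V) : ℕ := (univ.filter (fun j => P j = ∅)).card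

/-- updated centres -/
def upd (P : ι → Finset V) (H : Finset (ι × V)) : ι → Finset V :=
  fun j => P j ∪ (H.filter (fun q => q.1 = j)).image Prod.snd

lemma mem_upd {H : Finset (ι × V)} {j : ι} {z : V} : z ∈ upd P H j ↔ z ∈ P j ∨ (j, z) ∈ H := by
  simp only [upd, mem_union, mem_image, mem_filter]
  constructor
  · rintro (h | ⟨q, ⟨h1, h2⟩, h3⟩)
    · left; exact h
    · right; rw [← h2, ← h3]; exact h1
  · rintro (h | h)
    · left; exact h
    · right; exact ⟨(j, z), ⟨h, rfl⟩, rfl⟩

lemma upd_card_of_empty {H : Finset (ι × V)} {j : ι} (h : P j = ∅) :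
    (upd P H j).card = (H.filter (fun q => q.1 = j)).card := by
  unfold upd
  rw [h, empty_union, card_image_of_injOn]
  intro p hp q hq hpq
  simp only [coe_filter, Set.mem_ofPred_eq] at hp hq
  exact Prod.ext (hp.2.trans hq.2.symm) hpq

lemma upd_of_notin {H : Finset (ι × V)} {j : ι} (h : ∀ z, (j, z) ∉ H) : upd P H j = P j := by
  ext z; rw [mem_upd]
  constructor
  · rintro (h1 | h1)
    · exact h1
    · exact absurd h1 (h z)
  · exact fun h1 => Or.inl h1

/-- The creation step. -/
lemma create (hK : 1 ≤ K) (ht : 200000 * K ≤ t)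
    (hdeg : ∀ v, (univ.filter (fun j => v ∈ S j)).card ≤ t)
    (hI : Inv S t K x P) (hx : x ∈ (Poly S t K x P).extremePoints ℝ) (hne : (Fl x).Nonempty) :
    ∃ P' : ι → Finset V, Inv S t K x P' ∧ free P' < free P := by
  classical
  have hKr : (1:ℝ) ≤ K := by exact_mod_cast hK
  have htr : (200000 * K : ℝ) ≤ t := by exact_mod_cast ht
  have hn : (1:ℝ) ≤ (Fl x).card := by exact_mod_cast card_pos.mpr hne
  have A := count_deg hI hdeg
  have B : ((Fl x).card : ℝ) ≤ (Big S t K x).card + (New S t K x P).card
      + (Old S t K x P).card := by exact_mod_cast count_rank1 hx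
  have C : ((Fl x).card : ℝ) ≤ (Big S t K x).card + (New S t K x P).card
      + (Ti S t K x P).card + (Hv S t K x P).card := by exact_mod_cast count_rank2 hx
  have E := count_tight hI hK
  have G := count_heavy hI hK
  have hD : (0:ℝ) ≤ ∑ j ∈ Done S t K x, (fl S x j : ℝ) :=
    sum_nonneg fun _ _ => Nat.cast_nonneg _
  obtain ⟨hpos, hbig⟩ := arith hKr htr (Nat.cast_nonneg _) (Nat.cast_nonneg _)
    (Nat.cast_nonneg _) (Nat.cast_nonneg _) (Nat.cast_nonneg _) hD hn A B C E G
  have hU : (New S t K x P).Nonempty := by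
    rw [← card_pos]; exact_mod_cast hpos
  have hF : 25 * (900 * K) * (Fl x).card ≤ (t - 77 * K) * (New S t K x P).card := by
    have h77 : 77 * K ≤ t := by omega
    have : ((25 * (900 * K) * (Fl x).card : ℕ) : ℝ)
        ≤ (((t - 77 * K) * (New S t K x P).card : ℕ) : ℝ) := by
      rw [Nat.cast_mul (t - 77 * K), Nat.cast_sub h77]
      push_cast
      exact hbig
    exact_mod_cast this
  have hTc : ∀ j ∈ New S t K x P, (t - 77 * K) + 72 * K ≤ (S j ∩ Fl x).card := by
    intro j hj
    rw [mem_New] at hj
    have h1 := held_fl hj.1 (agree_self hI.box) (hI.cap j hj.1)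
    have h2 : (t:ℝ) ≤ fl S x j + 5 * K := by linarith
    have h3 : t ≤ fl S x j + 5 * K := by exact_mod_cast h2
    unfold fl at h3
    omega
  obtain ⟨H, hHne, hH1, hH2, hH3⟩ := exists_stars (New S t K x P) (Fl x)
    (fun j => S j ∩ Fl x) (45 * K) (72 * K) (900 * K) (t - 77 * K) (by omega) (by omega) hU
    (fun j _ => inter_subset_right) hTc hF
  have hnew : ∀ j z, (j, z) ∈ H → Held S t K x j ∧ P j = ∅ := fun j z h =>
    mem_New.mp (hH1 (j, z) h).1
  have hsub : ∀ j z, (j, z) ∈ H → z ∈ S j ∧ z ∈ Fl x := fun j z h =>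
    mem_inter.mp (hH1 (j, z) h).2
  -- group structure
  have hmemU : ∀ z, mem (upd P H) z = mem P z ∪ (H.filter (fun q => q.2 = z)).image Prod.fst := by
    intro z; ext j
    simp only [mem_mem, mem_upd, mem_union, mem_image, mem_filter]
    constructor
    · rintro (h | h)
      · left; exact h
      · right; exact ⟨(j, z), ⟨h, rfl⟩, rfl⟩
    · rintro (h | ⟨q, ⟨h1, h2⟩, h3⟩)
      · left; exact h
      · right; rw [← h2, ← h3]; exact h1
  have himg : ∀ z, ((H.filter (fun q => q.2 = z)).image Prod.fst).card
      = (H.filter (fun q => q.2 = z)).card := by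
    intro z
    refine card_image_of_injOn ?_
    intro p hp q hq hpq
    simp only [coe_filter, Set.mem_ofPred_eq] at hp hq
    exact Prod.ext hpq (hp.2.trans hq.2.symm)
  have hdisj : ∀ z, Disjoint (mem P z) ((H.filter (fun q => q.2 = z)).image Prod.fst) := by
    intro z
    rw [disjoint_left]
    intro j h1 h2
    rw [mem_mem] at h1
    rw [mem_image] at h2
    obtain ⟨q, hq, rfl⟩ := h2
    rw [mem_filter] at hq
    have := (hnew q.1 q.2 hq.1).2
    rw [this] at h1
    exact notMem_empty _ h1
  have hmcard : ∀ z, (mem (upd P H) z).card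
      = (mem P z).card + (H.filter (fun q => q.2 = z)).card := by
    intro z
    rw [hmemU, card_union_of_disjoint (hdisj z), himg]
  refine ⟨upd P H, ⟨hI.box, hI.big, hI.cap, ?_, ?_, ?_, ?_, ?_, ?_⟩, ?_⟩
  · -- new
    intro j hj hP
    refine hI.new j hj ?_
    rw [← subset_empty, ← hP]
    intro z hz
    exact mem_upd.mpr (Or.inl hz)
  · -- sub
    intro j z hz
    rcases mem_upd.mp hz with h | h
    · exact hI.sub j h
    · exact (hsub j z h).1
  · -- crd
    intro j hP
    by_cases hj : ∃ z, (j, z) ∈ H
    · obtain ⟨z, hz⟩ := hj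
      rw [upd_card_of_empty (hnew j z hz).2]
      exact hH2 (j, z) hz
    · push Not at hj
      rw [upd_of_notin hj] at hP ⊢
      exact hI.crd j hP
  · -- prog
    intro j hP
    by_cases hj : ∃ z, (j, z) ∈ H
    · obtain ⟨z, hz⟩ := hj
      have h1 : upd P H j \ Fl x = ∅ := by
        rw [sdiff_eq_empty_iff_subset]
        intro w hw
        rcases mem_upd.mp hw with h | h
        · rw [(hnew j z hz).2] at h; exact absurd h (notMem_empty _)
        · exact (hsub j w h).2
      rw [h1, card_empty, zero_add]
      exact (hnew j z hz).1.1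
    · push Not at hj
      rw [upd_of_notin hj] at hP ⊢
      exact hI.prog j hP
  · -- grp
    intro z hz
    have h1 : hmem S t K x (upd P H) z
        = hmem S t K x P z ∪ (H.filter (fun q => q.2 = z)).image Prod.fst := by
      ext j
      simp only [mem_hmem, mem_upd, mem_union, mem_image, mem_filter]
      constructor
      · rintro ⟨h | h, h'⟩
        · left; exact ⟨h, h'⟩
        · right; exact ⟨(j, z), ⟨h, rfl⟩, rfl⟩
      · rintro (h | ⟨q, ⟨h1, h2⟩, h3⟩)
        · exact ⟨Or.inl h.1, h.2⟩
        · have h4 : (j, z) ∈ H := by rw [← h2, ← h3]; exact h1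
          exact ⟨Or.inr h4, (hnew j z h4).1⟩
    have h2 : Disjoint (hmem S t K x P z) ((H.filter (fun q => q.2 = z)).image Prod.fst) := by
      refine Disjoint.mono_left ?_ (hdisj z)
      intro j hj
      rw [mem_hmem] at hj
      exact mem_mem.mpr hj.1
    rw [h1, sum_union h2, hmcard]
    have h3 := hI.grp z hz
    have h4 : ∑ j ∈ (H.filter (fun q => q.2 = z)).image Prod.fst,
        (4 * K + sg S x j * ∑ v ∈ S j, x v) ≤ (H.filter (fun q => q.2 = z)).card * (4 * K : ℝ) := by
      rw [← himg, ← nsmul_eq_mul, ← sum_const]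
      refine sum_le_sum fun j hj => ?_
      rw [mem_image] at hj
      obtain ⟨q, hq, rfl⟩ := hj
      rw [mem_filter] at hq
      have h5 := hnew q.1 q.2 hq.1
      have := hI.new q.1 h5.1 h5.2
      linarith
    push_cast
    linarith
  · -- gc
    intro z hz
    rw [hmcard]
    by_cases hj : ∃ j, (j, z) ∈ H
    · obtain ⟨j, hj⟩ := hj
      have := hH3 (j, z) hj
      simp only at this
      omega
    · push Not at hj
      have h1 : mem P z ≠ ∅ := by
        intro h0
        apply hz
        rw [hmemU, h0, empty_union, image_eq_empty, filter_eq_empty_iff]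
        intro q hq h
        apply hj q.1
        rw [← h]; exact hq
      have := hI.gc z h1
      omega
  · -- measure
    unfold free
    obtain ⟨p, hp⟩ := hHne
    refine card_lt_card ?_
    rw [ssubset_iff_of_subset]
    · refine ⟨p.1, ?_, ?_⟩
      · simp only [mem_filter, mem_univ, true_and]
        exact (hnew p.1 p.2 hp).2
      · simp only [mem_filter, mem_univ, true_and]
        exact ne_empty_of_mem (mem_upd.mpr (Or.inr hp) : p.2 ∈ upd P H p.1)
    · intro j hj
      simp only [mem_filter, mem_univ, true_and] at hj ⊢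
      rw [← subset_empty, ← hj]
      intro z hz
      exact mem_upd.mpr (Or.inl hz)

end Pool.Agent.Helper66.BF
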