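import Mathlib
import Pool.Agent.Helper66.BF.Create

set_option autoImplicit false
set_option linter.unusedSectionVars false

/-!
# The process terminates in a colouring
-/

namespace Pool.Agent.Helper66.BF

open Finset

variable {V ι : Type*} [Fintype V] [DecidableEq V] [Fintype ι] [DecidableEq ι]
variable {S : ι → Finset V} {t K : ℕ} {x : V → ℝ} {P : ι → Finset V}

lemma exists_extreme {C : Set (V → ℝ)} (hC : IsCompact C) (hne : C.Nonempty) :
    (C.extremePoints ℝ).Nonempty := hC.extremePoints_nonempty hne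

/-- one step of the process -/
lemma step (hK : 1 ≤ K) (ht : 200000 * K ≤ t)
    (hdeg : ∀ v, (univ.filter (fun j => v ∈ S j)).card ≤ t)
    (hI : Inv S t K x P) (hne : (Fl x).Nonempty) :
    ∃ (y : V → ℝ) (Q : ι → Finset V), Inv S t K y Q ∧
      ((Fl y).card < (Fl x).card ∨ ((Fl y).card = (Fl x).card ∧ free Q < free P)) := by
  obtain ⟨y, hy⟩ := exists_extreme (poly_isCompact S t K x P) ⟨x, hI.mem_poly⟩
  have hyI : Inv S t K y P := hI.move (by omega) hy.1
  have hag : Agree x y := hy.1.1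
  by_cases hF : Fl y = Fl x
  · have hy' : y ∈ (Poly S t K y P).extremePoints ℝ := by
      rw [poly_congr hag hF]; exact hy
    obtain ⟨Q, hQ, hlt⟩ := create hK ht hdeg hyI hy' (by rw [hF]; exact hne)
    exact ⟨y, Q, hQ, Or.inr ⟨by rw [hF], hlt⟩⟩
  · refine ⟨y, P, hyI, Or.inl ?_⟩
    exact card_lt_card (ssubset_of_subset_of_ne (Fl_subset hag) hF)

lemma free_le (P : ι → Finset V) : free P ≤ Fintype.card ι := card_le_univ _

lemma process (hK : 1 ≤ K) (ht : 200000 * K ≤ t)
    (hdeg : ∀ v, (univ.filter (fun j => v ∈ S j)).card ≤ t) :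
    ∀ (N : ℕ) (x : V → ℝ) (P : ι → Finset V), Inv S t K x P →
      (Fl x).card * (Fintype.card ι + 1) + free P ≤ N →
      ∃ (y : V → ℝ) (Q : ι → Finset V), Inv S t K y Q ∧ Fl y = ∅ := by
  intro N
  induction N with
  | zero =>
    intro x P hI hN
    refine ⟨x, P, hI, ?_⟩
    have h1 : (Fl x).card * (Fintype.card ι + 1) = 0 := by omega
    rcases Nat.mul_eq_zero.mp h1 with h2 | h2
    · exact card_eq_zero.mp h2
    · omega
  | succ N ih =>
    intro x P hI hN
    rcases (Fl x).eq_empty_or_nonempty with h0 | hne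
    · exact ⟨x, P, hI, h0⟩
    · obtain ⟨y, Q, hQ, h | h⟩ := step hK ht hdeg hI hne
      · refine ih y Q hQ ?_
        have h1 := free_le Q
        have h2 : ((Fl y).card + 1) * (Fintype.card ι + 1)
            ≤ (Fl x).card * (Fintype.card ι + 1) := Nat.mul_le_mul_right _ h
        have h3 : ((Fl y).card + 1) * (Fintype.card ι + 1)
            = (Fl y).card * (Fintype.card ι + 1) + (Fintype.card ι + 1) := by ring
        omega
      · refine ih y Q hQ ?_
        rw [h.1]
        omega

lemma inv_zero (ht : 200000 * K ≤ t) : Inv S t K (fun _ => (0:ℝ)) (fun _ => ∅) := by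
  have hm : ∀ z : V, mem (fun _ : ι => (∅ : Finset V)) z = ∅ := by
    intro z; simp [mem]
  refine ⟨by simp, by simp, ?_, by simp, by simp, by simp, by simp, ?_, ?_⟩
  · intro j _
    simp
  · intro z _
    have : hmem S t K (fun _ => (0:ℝ)) (fun _ => ∅) z = ∅ := by
      ext j; rw [mem_hmem]; simp
    rw [this, hm]
    simp
  · intro z hz
    exact absurd (hm z) hz

/-- real-valued form -/
theorem colouring (hK : 1 ≤ K) (ht : 200000 * K ≤ t) (S : ι → Finset V)
    (hdeg : ∀ v, (univ.filter (fun j => v ∈ S j)).card ≤ t) :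
    ∃ y : V → ℝ, (∀ v, |y v| = 1) ∧ ∀ j, |∑ v ∈ S j, y v| ≤ 2 * t - 2 * K := by
  obtain ⟨y, Q, hQ, hF⟩ := process hK ht hdeg _ (fun _ => (0:ℝ)) (fun _ => ∅) (inv_zero ht) le_rfl
  refine ⟨y, ?_, ?_⟩
  · intro v
    have h1 : v ∉ Fl y := by rw [hF]; exact notMem_empty _
    rw [mem_Fl, not_lt] at h1
    exact le_antisymm (hQ.box v) h1
  · intro j
    have hfl : fl S y j = 0 := by simp [fl, hF]
    have hnot : ¬ Held S t K y j := by
      intro hj
      have h1 := held_fl hj (agree_self hQ.box) (hQ.cap j hj)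
      rw [hfl] at h1
      have h2 : (200000 * K : ℝ) ≤ t := by exact_mod_cast ht
      have h3 : (1:ℝ) ≤ K := by exact_mod_cast hK
      push_cast at h1
      linarith
    have h1 : ¬ ((2 * t - 2 * K : ℝ) < |fx S y j| + fl S y j) := fun h => hnot ⟨by omega, h⟩
    rw [not_lt, hfl] at h1
    have h2 : ∑ v ∈ S j, y v = fx S y j := by
      unfold fx; rw [hF, sdiff_empty]
    rw [h2]
    push_cast at h1
    linarith

end Pool.Agent.Helper66.BF
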