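import Mathlib
import Pool.Agent.Helper66.BF.Final

set_option autoImplicit false
set_option linter.unusedSectionVars false

/-!
# The classical Beck–Fiala bound `2t - 1` (used for small `t`)
-/

namespace Pool.Agent.Helper66.BF

open Finset

variable {V ι : Type*} [Fintype V] [DecidableEq V] [Fintype ι] [DecidableEq ι]
variable {S : ι → Finset V} {t : ℕ} {x y : V → ℝ}

/-- classical state -/
def Cl (S : ι → Finset V) (t : ℕ) (x : V → ℝ) : Prop :=
  (∀ v, |x v| ≤ 1) ∧ ∀ j, (t < fl S x j ∧ ∑ v ∈ S j, x v = 0) ∨ |fx S x j| + fl S x j < 2 * t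

/-- classical polytope -/
def Poly0 (S : ι → Finset V) (t : ℕ) (x : V → ℝ) : Set (V → ℝ) :=
  {y | Agree x y ∧ ∀ j, t < fl S x j → ∑ v ∈ S j, x v = 0 → ∑ v ∈ S j, y v = 0}

lemma poly0_isCompact (S : ι → Finset V) (t : ℕ) (x : V → ℝ) : IsCompact (Poly0 S t x) := by
  have hbox : IsCompact (Set.pi Set.univ (fun _ : V => Set.Icc (-1:ℝ) 1)) :=
    isCompact_univ_pi fun _ => isCompact_Icc
  refine hbox.of_isClosed_subset ?_ ?_
  · unfold Poly0 Agree
    simp only [Set.ofPred_and, Set.ofPred_forall]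
    refine IsClosed.inter (IsClosed.inter ?_ ?_) ?_
    · exact isClosed_iInter fun v => isClosed_iInter fun _ =>
        isClosed_eq (continuous_apply v) continuous_const
    · exact isClosed_iInter fun v => isClosed_le (by fun_prop) continuous_const
    · exact isClosed_iInter fun j => isClosed_iInter fun _ => isClosed_iInter fun _ =>
        isClosed_eq (by fun_prop) continuous_const
  · intro y hy v _
    have := hy.1.2 v
    rw [abs_le] at this
    exact ⟨this.1, this.2⟩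

lemma extreme0_no_dir (hy : y ∈ (Poly0 S t x).extremePoints ℝ) (hFl : Fl y = Fl x) (u : V → ℝ)
    (hu : ∀ v, v ∉ Fl x → u v = 0)
    (h1 : ∀ j, t < fl S x j → ∑ v ∈ S j, u v = 0) : u = 0 := by
  classical
  have hyP := hy.1
  have hsum : ∀ (j : ι) (τ : ℝ), ∑ v ∈ S j, (y + τ • u) v
      = ∑ v ∈ S j, y v + τ * ∑ v ∈ S j, u v := by
    intro j τ
    simp only [Pi.add_apply, Pi.smul_apply, smul_eq_mul, sum_add_distrib, mul_sum]
  have hev : ∀ᶠ τ : ℝ in nhds 0, y + τ • u ∈ Poly0 S t x := by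
    have e1 : ∀ᶠ τ : ℝ in nhds 0, ∀ v, |(y + τ • u) v| ≤ 1 := by
      rw [Filter.eventually_all]
      intro v
      by_cases hv : v ∈ Fl x
      · have hlt : |y v| < 1 := by rw [← hFl] at hv; exact mem_Fl.mp hv
        have hc : Continuous (fun τ : ℝ => |(y + τ • u) v|) := by
          simp only [Pi.add_apply, Pi.smul_apply, smul_eq_mul]
          fun_prop
        have := hc.tendsto 0
        have h0 : |(y + (0:ℝ) • u) v| < 1 := by simpa using hlt
        exact (this.eventually_lt_const h0).mono fun τ hτ => hτ.le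
      · refine Filter.Eventually.of_forall fun τ => ?_
        simp only [Pi.add_apply, Pi.smul_apply, smul_eq_mul, hu v hv, mul_zero, add_zero]
        exact hyP.1.2 v
    filter_upwards [e1] with τ t1
    refine ⟨⟨?_, t1⟩, ?_⟩
    · intro v hv
      simp only [Pi.add_apply, Pi.smul_apply, smul_eq_mul, hu v hv, mul_zero, add_zero]
      exact hyP.1.1 v hv
    · intro j hj hj'
      rw [hsum, h1 j hj, mul_zero, add_zero]
      exact hyP.2 j hj hj'
  rw [Metric.eventually_nhds_iff] at hev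
  obtain ⟨ε, hε, hev⟩ := hev
  have hp : y + (ε / 2) • u ∈ Poly0 S t x := by
    apply hev
    rw [Real.dist_eq, sub_zero, abs_of_pos (by linarith)]
    linarith
  have hm : y + (-(ε / 2)) • u ∈ Poly0 S t x := by
    apply hev
    rw [Real.dist_eq, sub_zero, abs_neg, abs_of_pos (by linarith)]
    linarith
  have hseg : y ∈ openSegment ℝ (y + (ε / 2) • u) (y + (-(ε / 2)) • u) := by
    refine ⟨1 / 2, 1 / 2, by norm_num, by norm_num, by norm_num, ?_⟩
    ext v
    simp only [Pi.add_apply, Pi.smul_apply, smul_eq_mul]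
    ring
  have heq := hy.2 hp hm hseg
  have h6 : (ε / 2) • u = 0 := by
    have : y + (ε / 2) • u = y + 0 := by rw [add_zero]; exact heq
    exact add_left_cancel this
  rcases smul_eq_zero.mp h6 with h7 | h7
  · linarith
  · exact h7

lemma Cl.move (ht : 1 ≤ t) (h : Cl S t x) (hy : y ∈ Poly0 S t x) : Cl S t y := by
  obtain ⟨hag, hbig⟩ := hy
  refine ⟨hag.2, fun j => ?_⟩
  rcases h.2 j with ⟨h1, h2⟩ | h1
  · have h3 := hbig j h1 h2
    by_cases h4 : t < fl S y j
    · left; exact ⟨h4, h3⟩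
    · right
      rw [not_lt] at h4
      have h5 : |fx S y j| ≤ ∑ v ∈ S j ∩ Fl y, |y v| := by
        have h6 : fx S y j + ∑ v ∈ S j ∩ Fl y, y v = 0 := by
          rw [← h3]
          exact (sum_agree (agree_self hag.2)).symm
        have h7 : fx S y j = -∑ v ∈ S j ∩ Fl y, y v := by linarith
        rw [h7, abs_neg]
        exact abs_sum_le_sum_abs _ _
      have h8 : (fl S y j : ℝ) ≤ t := by exact_mod_cast h4
      have h9 : (1:ℝ) ≤ t := by exact_mod_cast ht
      rcases (S j ∩ Fl y).eq_empty_or_nonempty with h0 | hne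
      · rw [h0, sum_empty] at h5
        have : (fl S y j : ℝ) = 0 := by unfold fl; rw [h0]; simp
        rw [this]
        linarith
      · have h10 : ∑ v ∈ S j ∩ Fl y, |y v| < ∑ v ∈ S j ∩ Fl y, (1:ℝ) :=
          sum_lt_sum_of_nonempty hne fun v hv => mem_Fl.mp (mem_inter.mp hv).2
        have h11 : ∑ v ∈ S j ∩ Fl y, (1:ℝ) = fl S y j := by simp [fl]
        rw [h11] at h10
        linarith
  · right
    exact lt_of_le_of_lt (pot_le hag) h1

lemma step0 (ht : 1 ≤ t) (hdeg : ∀ v, (univ.filter (fun j => v ∈ S j)).card ≤ t)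
    (hI : Cl S t x) (hne : (Fl x).Nonempty) :
    ∃ y : V → ℝ, Cl S t y ∧ (Fl y).card < (Fl x).card := by
  classical
  have hxP : x ∈ Poly0 S t x := ⟨agree_self hI.1, fun j _ h => h⟩
  obtain ⟨y, hy⟩ := exists_extreme (poly0_isCompact S t x) ⟨x, hxP⟩
  refine ⟨y, hI.move ht hy.1, ?_⟩
  have hag : Agree x y := hy.1.1
  refine card_lt_card (ssubset_of_subset_of_ne (Fl_subset hag) ?_)
  intro hF
  have h1 : (t + 1) * (univ.filter (fun j => t < fl S x j)).card ≤ t * (Fl x).card := by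
    refine le_trans ?_ (sum_fl_le hdeg)
    rw [mul_comm, ← smul_eq_mul, ← sum_const]
    refine le_trans ?_ (sum_le_sum_of_subset (filter_subset (fun j => t < fl S x j) univ))
    refine sum_le_sum fun j hj => ?_
    rw [mem_filter] at hj
    exact hj.2
  have h2 : (univ.filter (fun j => t < fl S x j)).card < (Fl x).card := by
    by_contra hc
    rw [not_lt] at hc
    have h3 : (t + 1) * (Fl x).card ≤ t * (Fl x).card :=
      (Nat.mul_le_mul_left _ hc).trans h1
    have h4 : 0 < (Fl x).card := card_pos.mpr hne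
    nlinarith
  obtain ⟨u, hu0, hu1, hu2⟩ := exists_kernel (Fl x) (univ.filter (fun j => t < fl S x j))
    (fun j => (∑ v ∈ S j, LinearMap.proj v : (V → ℝ) →ₗ[ℝ] ℝ)) h2
  apply hu0
  refine extreme0_no_dir hy hF u hu1 fun j hj => ?_
  have := hu2 j (by simp [hj])
  simpa using this

lemma process0 (ht : 1 ≤ t) (hdeg : ∀ v, (univ.filter (fun j => v ∈ S j)).card ≤ t) :
    ∀ (N : ℕ) (x : V → ℝ), Cl S t x → (Fl x).card ≤ N → ∃ y : V → ℝ, Cl S t y ∧ Fl y = ∅ := by
  intro N
  induction N with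
  | zero => exact fun x hI hN => ⟨x, hI, card_eq_zero.mp (by omega)⟩
  | succ N ih =>
    intro x hI hN
    rcases (Fl x).eq_empty_or_nonempty with h0 | hne
    · exact ⟨x, hI, h0⟩
    · obtain ⟨y, hy, h⟩ := step0 ht hdeg hI hne
      exact ih y hy (by omega)

/-- real-valued form of the classical theorem -/
theorem colouring0 (ht : 1 ≤ t) (S : ι → Finset V)
    (hdeg : ∀ v, (univ.filter (fun j => v ∈ S j)).card ≤ t) :
    ∃ y : V → ℝ, (∀ v, |y v| = 1) ∧ ∀ j, |∑ v ∈ S j, y v| < 2 * t := by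
  have h0 : Cl S t (fun _ => (0:ℝ)) := by
    refine ⟨by simp, fun j => ?_⟩
    by_cases h : t < fl S (fun _ => (0:ℝ)) j
    · left; exact ⟨h, by simp⟩
    · right
      rw [not_lt] at h
      have h1 : (fl S (fun _ => (0:ℝ)) j : ℝ) ≤ t := by exact_mod_cast h
      have h2 : (1:ℝ) ≤ t := by exact_mod_cast ht
      have h3 : fx S (fun _ => (0:ℝ)) j = 0 := by simp [fx]
      rw [h3, abs_zero]
      linarith
  obtain ⟨y, hy, hF⟩ := process0 ht hdeg _ _ h0 le_rfl
  refine ⟨y, ?_, ?_⟩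
  · intro v
    have h1 : v ∉ Fl y := by rw [hF]; exact notMem_empty _
    rw [mem_Fl, not_lt] at h1
    exact le_antisymm (hy.1 v) h1
  · intro j
    have hfl : fl S y j = 0 := by simp [fl, hF]
    have h2 : ∑ v ∈ S j, y v = fx S y j := by
      unfold fx; rw [hF, sdiff_empty]
    rcases hy.2 j with ⟨h1, _⟩ | h1
    · omega
    · rw [h2]
      rw [hfl] at h1
      simpa using h1

/-! ### integer colourings -/

/-- A real colouring with values `±1` is an integer colouring. -/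
lemma to_int {y : V → ℝ} (hy : ∀ v, |y v| = 1) :
    ∃ χ : V → ℤ, (∀ v, χ v = 1 ∨ χ v = -1) ∧ ∀ v, (χ v : ℝ) = y v := by
  have h : ∀ v, ∃ a : ℤ, (a = 1 ∨ a = -1) ∧ (a : ℝ) = y v := by
    intro v
    rcases eq_or_eq_neg_of_abs_eq (hy v) with h | h
    · exact ⟨1, Or.inl rfl, by rw [h]; norm_num⟩
    · exact ⟨-1, Or.inr rfl, by rw [h]; norm_num⟩
  choose χ h1 h2 using h
  exact ⟨χ, h1, h2⟩

/-- classical Beck–Fiala theorem -/
theorem beck_fiala_classic (ht : 1 ≤ t) (S : ι → Finset V)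
    (hdeg : ∀ v, (univ.filter (fun j => v ∈ S j)).card ≤ t) :
    ∃ χ : V → ℤ, (∀ v, χ v = 1 ∨ χ v = -1) ∧ ∀ j, |∑ v ∈ S j, χ v| ≤ 2 * t - 1 := by
  obtain ⟨y, hy, hd⟩ := colouring0 ht S hdeg
  obtain ⟨χ, h1, h2⟩ := to_int hy
  refine ⟨χ, h1, fun j => ?_⟩
  have h3 := hd j
  have h4 : ((|∑ v ∈ S j, χ v| : ℤ) : ℝ) < ((2 * t : ℤ) : ℝ) := by
    push_cast
    simp only [h2]
    exact h3
  have h5 : |∑ v ∈ S j, χ v| < 2 * t := by exact_mod_cast h4
  omega

/-- the improved theorem -/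
theorem beck_fiala_improved {K : ℕ} (hK : 1 ≤ K) (ht : 200000 * K ≤ t) (S : ι → Finset V)
    (hdeg : ∀ v, (univ.filter (fun j => v ∈ S j)).card ≤ t) :
    ∃ χ : V → ℤ, (∀ v, χ v = 1 ∨ χ v = -1) ∧ ∀ j, |∑ v ∈ S j, χ v| ≤ 2 * t - 2 * K := by
  obtain ⟨y, hy, hd⟩ := colouring hK ht S hdeg
  obtain ⟨χ, h1, h2⟩ := to_int hy
  refine ⟨χ, h1, fun j => ?_⟩
  have h3 := hd j
  have h4 : ((|∑ v ∈ S j, χ v| : ℤ) : ℝ) ≤ ((2 * t - 2 * K : ℤ) : ℝ) := by
    push_cast
    simp only [h2]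
    exact h3
  exact_mod_cast h4

end Pool.Agent.Helper66.BF
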